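import Pool.Agent.TH229.PB.Mean

/-!
Taylor bounds for a periodic C⁴ function in the cotangent coordinate.
-/

namespace Pool.Agent.TH229.PB

open Real Set

/-- periodic functions with four derivatives -/
structure Per4 (w w1 w2 w3 w4 : ℝ → ℝ) : Prop where
  d1 : ∀ x, HasDerivAt w (w1 x) x
  d2 : ∀ x, HasDerivAt w1 (w2 x) x
  d3 : ∀ x, HasDerivAt w2 (w3 x) x
  d4 : ∀ x, HasDerivAt w3 (w4 x) x
  c4 : Continuous w4
  p0 : ∀ x, w (x + 2 * π) = w x
  p1 : ∀ x, w1 (x + 2 * π) = w1 x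
  p2 : ∀ x, w2 (x + 2 * π) = w2 x
  p3 : ∀ x, w3 (x + 2 * π) = w3 x
  p4 : ∀ x, w4 (x + 2 * π) = w4 x

namespace Per4
variable {w w1 w2 w3 w4 : ℝ → ℝ}

theorem c0 (H : Per4 w w1 w2 w3 w4) : Continuous w :=
  continuous_iff_continuousAt.mpr fun x => (H.d1 x).continuousAt
theorem c1 (H : Per4 w w1 w2 w3 w4) : Continuous w1 :=
  continuous_iff_continuousAt.mpr fun x => (H.d2 x).continuousAt
theorem c2 (H : Per4 w w1 w2 w3 w4) : Continuous w2 :=
  continuous_iff_continuousAt.mpr fun x => (H.d3 x).continuousAt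
theorem c3 (H : Per4 w w1 w2 w3 w4) : Continuous w3 :=
  continuous_iff_continuousAt.mpr fun x => (H.d4 x).continuousAt

theorem bdd (H : Per4 w w1 w2 w3 w4) : ∃ C, 0 ≤ C ∧ ∀ x, |w x| ≤ C ∧ |w1 x| ≤ C ∧ |w2 x| ≤ C ∧
    |w3 x| ≤ C ∧ |w4 x| ≤ C := by
  obtain ⟨C0, h0, b0⟩ := bdd_of_per H.c0 H.p0
  obtain ⟨C1, h1, b1⟩ := bdd_of_per H.c1 H.p1
  obtain ⟨C2, h2, b2⟩ := bdd_of_per H.c2 H.p2
  obtain ⟨C3, h3, b3⟩ := bdd_of_per H.c3 H.p3
  obtain ⟨C4, h4, b4⟩ := bdd_of_per H.c4 H.p4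
  refine ⟨C0 + C1 + C2 + C3 + C4, by positivity, fun x => ⟨?_, ?_, ?_, ?_, ?_⟩⟩
  · linarith [b0 x]
  · linarith [b1 x]
  · linarith [b2 x]
  · linarith [b3 x]
  · linarith [b4 x]
end Per4

theorem growth {f f' : ℝ → ℝ} (hf : ∀ t, HasDerivAt f (f' t) t) (h0 : f 0 = 0) {C : ℝ}
    (hC : 0 ≤ C) (k : ℕ) (hb : ∀ t, |f' t| ≤ C * |t| ^ k) (t : ℝ) : |f t| ≤ C * |t| ^ (k + 1) := by
  have h := (convex_uIcc (0 : ℝ) t).norm_image_sub_le_of_norm_hasDerivWithin_le
    (f := f) (f' := f') (C := C * |t| ^ k) (fun x _ => (hf x).hasDerivWithinAt)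
    (fun x hx => by
      have hxt : |x| ≤ |t| := by
        have := abs_sub_left_of_mem_uIcc hx
        simpa using this
      calc ‖f' x‖ = |f' x| := rfl
        _ ≤ C * |x| ^ k := hb x
        _ ≤ C * |t| ^ k := by gcongr) left_mem_uIcc right_mem_uIcc
  rw [h0, sub_zero, sub_zero] at h
  calc |f t| = ‖f t‖ := rfl
    _ ≤ _ := h
    _ = _ := by rw [Real.norm_eq_abs]; ring

section
variable {w w1 w2 w3 w4 : ℝ → ℝ} (H : Per4 w w1 w2 w3 w4) {C : ℝ} (hC : 0 ≤ C)
  (hb : ∀ x, |w x| ≤ C ∧ |w1 x| ≤ C ∧ |w2 x| ≤ C ∧ |w3 x| ≤ C ∧ |w4 x| ≤ C) (x : ℝ)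

theorem hasD {f f' : ℝ → ℝ} (hf : ∀ t, HasDerivAt f (f' t) t) (x t : ℝ) :
    HasDerivAt (fun t => f (x + 2 * t)) (2 * f' (x + 2 * t)) t := by
  have h1 : HasDerivAt (fun t : ℝ => x + 2 * t) 2 t := by
    simpa using ((hasDerivAt_id t).const_mul 2).const_add x
  have := (hf (x + 2 * t)).comp t h1
  rw [mul_comm]; exact this

theorem hasSin (k t : ℝ) : HasDerivAt (fun t => Real.sin (k * t)) (k * Real.cos (k * t)) t := by
  have h1 : HasDerivAt (fun t : ℝ => k * t) k t := by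
    simpa using (hasDerivAt_id t).const_mul k
  have := h1.sin
  rw [mul_comm]; exact this

theorem hasCos (k t : ℝ) : HasDerivAt (fun t => Real.cos (k * t)) (-k * Real.sin (k * t)) t := by
  have h1 : HasDerivAt (fun t : ℝ => k * t) k t := by
    simpa using (hasDerivAt_id t).const_mul k
  refine h1.cos.congr_deriv ?_
  ring

include H hC hb

theorem diff_bound (t : ℝ) : |w (x + 2 * t) - w x| ≤ 2 * C * |t| := by
  have := growth (f := fun t => w (x + 2 * t) - w x) (f' := fun t => 2 * w1 (x + 2 * t))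
    (fun t => (hasD H.d1 x t).sub_const _) (by simp) (C := 2 * C) (by positivity) 0
    (fun t => by
      rw [abs_mul, pow_zero, mul_one, abs_two]
      have := (hb (x + 2 * t)).2.1
      linarith) t
  simpa using this

theorem N1_bound (t : ℝ) :
    |Real.cos t * (w (x + 2 * t) - w x) - Real.sin t * (w1 (x + 2 * t) + w1 x)| ≤
      10 * C * |t| ^ 3 := by
  have hs : ∀ t, |Real.sin t| ≤ |t| := fun t => Real.abs_sin_le_abs
  refine growth (f := fun t => Real.cos t * (w (x + 2 * t) - w x) -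
      Real.sin t * (w1 (x + 2 * t) + w1 x))
    (f' := fun t => -Real.sin t * (w (x + 2 * t) - w x) + Real.cos t * (w1 (x + 2 * t) - w1 x)
      - 2 * Real.sin t * w2 (x + 2 * t)) (fun t => ?_) (by simp) (C := 10 * C) (by positivity) 2
    (fun t => ?_) t
  · have := ((Real.hasDerivAt_cos t).mul ((hasD H.d1 x t).sub_const (w x))).sub
      ((Real.hasDerivAt_sin t).mul ((hasD H.d2 x t).add_const (w1 x)))
    refine this.congr_deriv ?_
    ring
  · refine growth (f := fun t => -Real.sin t * (w (x + 2 * t) - w x) +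
        Real.cos t * (w1 (x + 2 * t) - w1 x) - 2 * Real.sin t * w2 (x + 2 * t))
      (f' := fun t => -Real.cos t * (w (x + 2 * t) - w x) - 3 * Real.sin t * w1 (x + 2 * t) +
        Real.sin t * w1 x - 4 * Real.sin t * w3 (x + 2 * t)) (fun t => ?_) (by simp)
        (C := 10 * C) (by positivity) 1
      (fun t => ?_) t
    · have := ((((Real.hasDerivAt_sin t).neg).mul ((hasD H.d1 x t).sub_const (w x))).add
        ((Real.hasDerivAt_cos t).mul ((hasD H.d2 x t).sub_const (w1 x)))).sub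
        (((Real.hasDerivAt_sin t).const_mul 2).mul (hasD H.d3 x t))
      refine this.congr_deriv ?_
      simp only [Pi.neg_apply]
      ring
    · have e1 := diff_bound H hC hb x t
      have e2 := (hb (x + 2 * t)).2.1
      have e3 := (hb x).2.1
      have e4 := (hb (x + 2 * t)).2.2.2.1
      have hst := hs t
      have hct := Real.abs_cos_le_one t
      have b1 : |-Real.cos t * (w (x + 2 * t) - w x)| ≤ 1 * (2 * C * |t|) := by
        rw [abs_mul, abs_neg]; gcongr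
      have b2 : |3 * Real.sin t * w1 (x + 2 * t)| ≤ 3 * |t| * C := by
        rw [abs_mul, abs_mul, abs_of_pos (by norm_num : (0 : ℝ) < 3)]; gcongr
      have b3 : |Real.sin t * w1 x| ≤ |t| * C := by
        rw [abs_mul]; gcongr
      have b4 : |4 * Real.sin t * w3 (x + 2 * t)| ≤ 4 * |t| * C := by
        rw [abs_mul, abs_mul, abs_of_pos (by norm_num : (0 : ℝ) < 4)]; gcongr
      rw [pow_one]
      rw [abs_le] at b1 b2 b3 b4 ⊢
      constructor <;> nlinarith [b1.1, b1.2, b2.1, b2.2, b3.1, b3.2, b4.1, b4.2]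

theorem N2_bound (t : ℝ) :
    |w (x + 2 * t) - w x - w1 x * Real.sin (2 * t) - w2 x * (1 - Real.cos (2 * t)) -
      (1 / 3) * (w3 x + w1 x) * (Real.sin (2 * t) - Real.sin (4 * t) / 2)| ≤
      144 * C * |t| ^ 4 := by
  have bx := hb x
  have bs : ∀ k t : ℝ, |Real.sin (k * t)| ≤ 1 := fun k t => Real.abs_sin_le_one _
  have bc : ∀ k t : ℝ, |Real.cos (k * t)| ≤ 1 := fun k t => Real.abs_cos_le_one _
  refine growth (f := fun t => w (x + 2 * t) - w x - w1 x * Real.sin (2 * t) -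
      w2 x * (1 - Real.cos (2 * t)) -
      (1 / 3) * (w3 x + w1 x) * (Real.sin (2 * t) - Real.sin (4 * t) / 2))
    (f' := fun t => 2 * w1 (x + 2 * t) - 2 * w1 x * Real.cos (2 * t) -
      2 * w2 x * Real.sin (2 * t) -
      (1 / 3) * (w3 x + w1 x) * (2 * Real.cos (2 * t) - 2 * Real.cos (4 * t)))
    (fun t => ?_) (by simp) (C := 144 * C) (by positivity) 3 (fun t => ?_) t
  · have := ((((hasD H.d1 x t).sub_const (w x)).sub ((hasSin 2 t).const_mul (w1 x))).sub
      (((hasCos 2 t).const_sub 1).const_mul (w2 x))).sub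
      (((hasSin 2 t).sub ((hasSin 4 t).div_const 2)).const_mul ((1 / 3) * (w3 x + w1 x)))
    refine this.congr_deriv ?_
    ring
  refine growth (f := fun t => 2 * w1 (x + 2 * t) - 2 * w1 x * Real.cos (2 * t) -
      2 * w2 x * Real.sin (2 * t) -
      (1 / 3) * (w3 x + w1 x) * (2 * Real.cos (2 * t) - 2 * Real.cos (4 * t)))
    (f' := fun t => 4 * w2 (x + 2 * t) + 4 * w1 x * Real.sin (2 * t) -
      4 * w2 x * Real.cos (2 * t) -
      (1 / 3) * (w3 x + w1 x) * (-4 * Real.sin (2 * t) + 8 * Real.sin (4 * t)))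
    (fun t => ?_) (by simp) (C := 144 * C) (by positivity) 2 (fun t => ?_) t
  · have := ((((hasD H.d2 x t).const_mul 2).sub ((hasCos 2 t).const_mul (2 * w1 x))).sub
      ((hasSin 2 t).const_mul (2 * w2 x))).sub
      ((((hasCos 2 t).const_mul 2).sub ((hasCos 4 t).const_mul 2)).const_mul
        ((1 / 3) * (w3 x + w1 x)))
    refine this.congr_deriv ?_
    ring
  refine growth (f := fun t => 4 * w2 (x + 2 * t) + 4 * w1 x * Real.sin (2 * t) -
      4 * w2 x * Real.cos (2 * t) -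
      (1 / 3) * (w3 x + w1 x) * (-4 * Real.sin (2 * t) + 8 * Real.sin (4 * t)))
    (f' := fun t => 8 * w3 (x + 2 * t) + 8 * w1 x * Real.cos (2 * t) +
      8 * w2 x * Real.sin (2 * t) -
      (1 / 3) * (w3 x + w1 x) * (-8 * Real.cos (2 * t) + 32 * Real.cos (4 * t)))
    (fun t => ?_) (by simp) (C := 144 * C) (by positivity) 1 (fun t => ?_) t
  · have := ((((hasD H.d3 x t).const_mul 4).add ((hasSin 2 t).const_mul (4 * w1 x))).sub
      ((hasCos 2 t).const_mul (4 * w2 x))).sub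
      ((((hasSin 2 t).const_mul (-4)).add ((hasSin 4 t).const_mul 8)).const_mul
        ((1 / 3) * (w3 x + w1 x)))
    refine this.congr_deriv ?_
    ring
  refine growth (f := fun t => 8 * w3 (x + 2 * t) + 8 * w1 x * Real.cos (2 * t) +
      8 * w2 x * Real.sin (2 * t) -
      (1 / 3) * (w3 x + w1 x) * (-8 * Real.cos (2 * t) + 32 * Real.cos (4 * t)))
    (f' := fun t => 16 * w4 (x + 2 * t) - 16 * w1 x * Real.sin (2 * t) +
      16 * w2 x * Real.cos (2 * t) -
      (1 / 3) * (w3 x + w1 x) * (16 * Real.sin (2 * t) - 128 * Real.sin (4 * t)))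
    (fun t => ?_) (by simp; ring) (C := 144 * C) (by positivity) 0 (fun t => ?_) t
  · have := ((((hasD H.d4 x t).const_mul 8).add ((hasCos 2 t).const_mul (8 * w1 x))).add
      ((hasSin 2 t).const_mul (8 * w2 x))).sub
      ((((hasCos 2 t).const_mul (-8)).add ((hasCos 4 t).const_mul 32)).const_mul
        ((1 / 3) * (w3 x + w1 x)))
    refine this.congr_deriv ?_
    ring
  · have b4 := (hb (x + 2 * t)).2.2.2.2
    have c1 : |16 * w1 x * Real.sin (2 * t)| ≤ 16 * C * 1 := by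
      rw [abs_mul, abs_mul, abs_of_pos (by norm_num : (0 : ℝ) < 16)]
      exact mul_le_mul (mul_le_mul_of_nonneg_left bx.2.1 (by norm_num)) (bs 2 t)
        (abs_nonneg _) (by positivity)
    have c2 : |16 * w2 x * Real.cos (2 * t)| ≤ 16 * C * 1 := by
      rw [abs_mul, abs_mul, abs_of_pos (by norm_num : (0 : ℝ) < 16)]
      exact mul_le_mul (mul_le_mul_of_nonneg_left bx.2.2.1 (by norm_num)) (bc 2 t)
        (abs_nonneg _) (by positivity)
    have c3 : |16 * Real.sin (2 * t) - 128 * Real.sin (4 * t)| ≤ 144 := by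
      have h1 := abs_le.mp (bs 2 t)
      have h2 := abs_le.mp (bs 4 t)
      rw [abs_le]; constructor <;> linarith [h1.1, h1.2, h2.1, h2.2]
    have c4 : |(1 / 3) * (w3 x + w1 x) * (16 * Real.sin (2 * t) - 128 * Real.sin (4 * t))| ≤
        (1 / 3) * (C + C) * 144 := by
      rw [abs_mul, abs_mul, abs_of_pos (by norm_num : (0 : ℝ) < 1 / 3)]
      have : |w3 x + w1 x| ≤ C + C := (abs_add_le _ _).trans (add_le_add bx.2.2.2.1 bx.2.1)
      exact mul_le_mul (mul_le_mul_of_nonneg_left this (by norm_num)) c3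
        (abs_nonneg _) (by positivity)
    rw [pow_zero, mul_one]
    rw [abs_le] at b4 c1 c2 c4 ⊢
    constructor <;> linarith [b4.1, b4.2, c1.1, c1.2, c2.1, c2.2, c4.1, c4.2]

omit H hC hb in
/-- reduction of the half-angle to `[-π/2, π/2]` -/
theorem half_red (y : ℝ) : ∃ t : ℝ, |t| ≤ π / 2 ∧ Real.sin t ≠ 0 ∧ Real.cos t / Real.sin t = y ∧
    Real.sin t ^ 2 = 1 / (1 + y ^ 2) ∧
    (∀ f : ℝ → ℝ, (∀ x, f (x + 2 * π) = f x) → ∀ x, f (x + dl y) = f (x + 2 * t)) := by
  have hs := sin_half_dl_sq y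
  have hcot := cot_half_dl y
  have hpos : 0 < Real.sin (dl y / 2) := Real.sin_pos_of_pos_of_lt_pi
    (by linarith [dl_pos y]) (by linarith [dl_lt y])
  rw [Real.cot_eq_cos_div_sin] at hcot
  by_cases h : dl y / 2 ≤ π / 2
  · refine ⟨dl y / 2, ?_, hpos.ne', hcot, hs, ?_⟩
    · rw [abs_le]; constructor <;> linarith [dl_pos y]
    · intro f _ x
      congr 1; ring
  · rw [not_le] at h
    have e : dl y / 2 - π = -(π - dl y / 2) := by ring
    have hs' : Real.sin (dl y / 2 - π) = - Real.sin (dl y / 2) := Real.sin_sub_pi _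
    have hc' : Real.cos (dl y / 2 - π) = - Real.cos (dl y / 2) := Real.cos_sub_pi _
    refine ⟨dl y / 2 - π, ?_, ?_, ?_, ?_, ?_⟩
    · rw [abs_le]; constructor <;> linarith [dl_lt y]
    · rw [hs']; exact neg_ne_zero.mpr hpos.ne'
    · rw [hs', hc', neg_div_neg_eq, hcot]
    · rw [hs', neg_sq, hs]
    · intro f hf x
      rw [← hf (x + 2 * (dl y / 2 - π))]
      congr 1; ring

/-- first bound: almost conservation of the linear integral -/
theorem B1_bound (y : ℝ) : |(w (x + dl y) - w x) * y - (w1 (x + dl y) + w1 x)| ≤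
    (10 * C * (π / 2) ^ 3) / (1 + y ^ 2) := by
  obtain ⟨t, ht, hs0, hcot, hs2, hper⟩ := half_red y
  rw [hper w H.p0, hper w1 H.p1]
  have h1 := N1_bound H hC hb x t
  have e : (w (x + 2 * t) - w x) * y - (w1 (x + 2 * t) + w1 x) =
      (Real.cos t * (w (x + 2 * t) - w x) - Real.sin t * (w1 (x + 2 * t) + w1 x)) /
        Real.sin t := by
    rw [← hcot]; field_simp
  have h2 : |t| ≤ π / 2 * |Real.sin t| := by
    have := Real.mul_abs_le_abs_sin ht
    have hpi := Real.pi_pos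
    calc |t| = π / 2 * (2 / π * |t|) := by field_simp
      _ ≤ π / 2 * |Real.sin t| := by gcongr
  have hs3 : 0 < |Real.sin t| := abs_pos.mpr hs0
  rw [e, abs_div, div_le_iff₀ hs3]
  calc _ ≤ 10 * C * |t| ^ 3 := h1
    _ ≤ 10 * C * (π / 2 * |Real.sin t|) ^ 3 := by gcongr
    _ = 10 * C * (π / 2) ^ 3 * |Real.sin t| ^ 2 * |Real.sin t| := by ring
    _ = _ := by rw [sq_abs, hs2]; ring

/-- second bound: expansion of the twist term -/
theorem B2_bound (y : ℝ) : |cc y * (w (x + dl y) - w x) - w1 x * y - w2 x -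
      (2 / 3) * (w3 x + w1 x) * (y / (1 + y ^ 2))| ≤
    (72 * C * (π / 2) ^ 4) / (1 + y ^ 2) := by
  obtain ⟨t, ht, hs0, hcot, hs2, hper⟩ := half_red y
  rw [hper w H.p0]
  have h1 := N2_bound H hC hb x t
  have hy : 0 < 1 + y ^ 2 := one_add_sq_pos y
  have hsin2 : Real.sin (2 * t) = 2 * y / (1 + y ^ 2) := by
    rw [Real.sin_two_mul]
    have : Real.cos t = y * Real.sin t := by rw [← hcot]; field_simp
    rw [this]
    have : 2 * Real.sin t * (y * Real.sin t) = 2 * y * Real.sin t ^ 2 := by ring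
    rw [this, hs2]; ring
  have hcos2 : 1 - Real.cos (2 * t) = 2 / (1 + y ^ 2) := by
    rw [Real.cos_two_mul']
    have h3 := Real.sin_sq_add_cos_sq t
    have : 1 - (Real.cos t ^ 2 - Real.sin t ^ 2) = 2 * Real.sin t ^ 2 := by linarith
    rw [this, hs2]; ring
  have hsin4 : Real.sin (4 * t) = 2 * Real.sin (2 * t) * Real.cos (2 * t) := by
    rw [← Real.sin_two_mul]; ring_nf
  have hcos2' : Real.cos (2 * t) = 1 - 2 / (1 + y ^ 2) := by linarith
  have e : cc y * (w (x + 2 * t) - w x) - w1 x * y - w2 x -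
      (2 / 3) * (w3 x + w1 x) * (y / (1 + y ^ 2)) =
      (w (x + 2 * t) - w x - w1 x * Real.sin (2 * t) - w2 x * (1 - Real.cos (2 * t)) -
      (1 / 3) * (w3 x + w1 x) * (Real.sin (2 * t) - Real.sin (4 * t) / 2)) / (2 *
        Real.sin t ^ 2) := by
    rw [hsin4, hcos2, hcos2', hsin2, hs2]
    unfold cc
    field_simp
    ring
  have h2 : |t| ≤ π / 2 * |Real.sin t| := by
    have := Real.mul_abs_le_abs_sin ht
    have hpi := Real.pi_pos
    calc |t| = π / 2 * (2 / π * |t|) := by field_simp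
      _ ≤ π / 2 * |Real.sin t| := by gcongr
  have hs3 : 0 < |Real.sin t| := abs_pos.mpr hs0
  have hs4 : 0 < 2 * Real.sin t ^ 2 := by positivity
  rw [e, abs_div, abs_of_pos hs4, div_le_iff₀ hs4]
  calc _ ≤ 144 * C * |t| ^ 4 := h1
    _ ≤ 144 * C * (π / 2 * |Real.sin t|) ^ 4 := by gcongr
    _ = 144 * C * (π / 2) ^ 4 * (|Real.sin t| ^ 2) * (|Real.sin t| ^ 2) := by ring
    _ = 72 * C * (π / 2) ^ 4 * (Real.sin t ^ 2) * (2 * Real.sin t ^ 2) := by
      rw [sq_abs]; ring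
    _ = _ := by nth_rewrite 1 [hs2]; ring

end

end Pool.Agent.TH229.PB
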