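import Mathlib

/-!
Phase cylinder of the projective involution map outside a circle.
`y = cot (half the angular gap)`, `dl y` = angular gap.
-/

namespace Pool.Agent.TH229.PB

open Real

/-- angular gap with half-angle cotangent `y` -/
noncomputable def dl (y : ℝ) : ℝ := π - 2 * Real.arctan y

/-- twist density -/
noncomputable def cc (y : ℝ) : ℝ := (1 + y ^ 2) / 2

/-- the map of the phase cylinder -/
noncomputable def F (K : ℝ → ℝ) (p : ℝ × ℝ) : ℝ × ℝ :=
  (p.1 + dl p.2, p.2 + K (p.1 + dl p.2))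

/-- a leaf: lift of the map sending the foot of one tangent from a point of the leaf
to the foot of the other tangent -/
structure Leaf (τ : ℝ → ℝ) : Prop where
  cont : Continuous τ
  mono : StrictMono τ
  per : ∀ x, τ (x + 2 * π) = τ x + 2 * π
  above : ∀ x, x < τ x
  below : ∀ x, τ x < x + 2 * π

theorem dl_pos (y : ℝ) : 0 < dl y := by
  unfold dl; linarith [Real.arctan_lt_pi_div_two y]

theorem dl_lt (y : ℝ) : dl y < 2 * π := by
  unfold dl; linarith [Real.neg_pi_div_two_lt_arctan y]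

theorem dl_strictAnti : StrictAnti dl := by
  intro a b h
  unfold dl
  have := Real.arctan_strictMono h
  linarith

theorem continuous_dl : Continuous dl := by
  unfold dl; fun_prop

theorem sin_half_dl (y : ℝ) : Real.sin (dl y / 2) = 1 / Real.sqrt (1 + y ^ 2) := by
  have : dl y / 2 = π / 2 - Real.arctan y := by unfold dl; ring
  rw [this, Real.sin_pi_div_two_sub, Real.cos_arctan]

theorem cos_half_dl (y : ℝ) : Real.cos (dl y / 2) = y / Real.sqrt (1 + y ^ 2) := by
  have : dl y / 2 = π / 2 - Real.arctan y := by unfold dl; ring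
  rw [this, Real.cos_pi_div_two_sub, Real.sin_arctan]

theorem one_add_sq_pos (y : ℝ) : 0 < 1 + y ^ 2 := by positivity

theorem sin_half_dl_sq (y : ℝ) : Real.sin (dl y / 2) ^ 2 = 1 / (1 + y ^ 2) := by
  rw [sin_half_dl, div_pow, Real.sq_sqrt (one_add_sq_pos y).le]; simp

theorem cot_half_dl (y : ℝ) : Real.cot (dl y / 2) = y := by
  rw [Real.cot_eq_cos_div_sin, cos_half_dl, sin_half_dl]
  have : Real.sqrt (1 + y ^ 2) ≠ 0 := (Real.sqrt_pos.mpr (one_add_sq_pos y)).ne'
  field_simp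

theorem dl_cot (d : ℝ) (h0 : 0 < d) (h1 : d < 2 * π) : dl (Real.cot (d / 2)) = d := by
  have h : Real.cot (d / 2) = Real.tan (π / 2 - d / 2) := by
    rw [Real.tan_pi_div_two_sub]
    rw [Real.cot_eq_cos_div_sin, Real.tan_eq_sin_div_cos, inv_div]
  unfold dl
  rw [h, Real.arctan_tan] <;> linarith

theorem cc_cot (d : ℝ) (h0 : 0 < d) (h1 : d < 2 * π) :
    cc (Real.cot (d / 2)) = 1 / (2 * Real.sin (d / 2) ^ 2) := by
  have hs : 0 < Real.sin (d / 2) := Real.sin_pos_of_pos_of_lt_pi (by linarith) (by linarith)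
  unfold cc
  rw [Real.cot_eq_cos_div_sin, div_pow]
  have := Real.sin_sq_add_cos_sq (d / 2)
  field_simp
  linarith

theorem cc_pos (y : ℝ) : 0 < cc y := by unfold cc; positivity

theorem continuous_cc : Continuous cc := by unfold cc; fun_prop

theorem continuous_F {K : ℝ → ℝ} (hK : Continuous K) : Continuous (F K) := by
  unfold F
  have := continuous_dl
  fun_prop

/-- iterates of a leaf -/
theorem Leaf.iter_cont {τ : ℝ → ℝ} (h : Leaf τ) (n : ℕ) : Continuous (τ^[n]) :=
  h.cont.iterate n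

theorem Leaf.iter_mono {τ : ℝ → ℝ} (h : Leaf τ) (n : ℕ) : StrictMono (τ^[n]) :=
  h.mono.iterate n

/-- cotangent coordinate along a leaf -/
noncomputable def ph (τ : ℝ → ℝ) (x : ℝ) : ℝ := Real.cot ((τ x - x) / 2)

theorem Leaf.sin_pos {τ : ℝ → ℝ} (h : Leaf τ) (x : ℝ) : 0 < Real.sin ((τ x - x) / 2) :=
  Real.sin_pos_of_pos_of_lt_pi (by linarith [h.above x]) (by linarith [h.below x])

theorem Leaf.dl_ph {τ : ℝ → ℝ} (h : Leaf τ) (x : ℝ) : dl (ph τ x) = τ x - x :=
  dl_cot _ (by linarith [h.above x]) (by linarith [h.below x])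

theorem Leaf.cc_ph {τ : ℝ → ℝ} (h : Leaf τ) (x : ℝ) :
    cc (ph τ x) = 1 / (2 * Real.sin ((τ x - x) / 2) ^ 2) :=
  cc_cot _ (by linarith [h.above x]) (by linarith [h.below x])

theorem Leaf.continuous_ph {τ : ℝ → ℝ} (h : Leaf τ) : Continuous (ph τ) := by
  have : ph τ = fun x => Real.cos ((τ x - x) / 2) / Real.sin ((τ x - x) / 2) := by
    funext x; rw [ph, Real.cot_eq_cos_div_sin]
  rw [this]
  have hc := h.cont
  refine Continuous.div (by fun_prop) (by fun_prop) (fun x => (h.sin_pos x).ne')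

theorem Leaf.ph_per {τ : ℝ → ℝ} (h : Leaf τ) (x : ℝ) : ph τ (x + 2 * π) = ph τ x := by
  unfold ph; rw [h.per]; ring_nf

/-- the projectivity condition on a leaf -/
def Inv (K : ℝ → ℝ) (τ : ℝ → ℝ) : Prop := ∀ x, ph τ (τ x) - ph τ x = K (τ x)

theorem Leaf.F_ph {τ K : ℝ → ℝ} (h : Leaf τ) (hi : Inv K τ) (x : ℝ) :
    F K (x, ph τ x) = (τ x, ph τ (τ x)) := by
  unfold F
  simp only [h.dl_ph x]
  have h2 : x + (τ x - x) = τ x := by ring
  rw [h2, ← hi x]
  ext <;> simp

theorem Leaf.F_iter {τ K : ℝ → ℝ} (h : Leaf τ) (hi : Inv K τ) (x : ℝ) (n : ℕ) :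
    (F K)^[n] (x, ph τ x) = (τ^[n] x, ph τ (τ^[n] x)) := by
  induction n with
  | zero => rfl
  | succ n ih =>
    rw [Function.iterate_succ_apply', ih, h.F_ph hi, Function.iterate_succ_apply']

end Pool.Agent.TH229.PB
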