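import Mathlib

/-!
Parseval for 2π-periodic functions, the chord inequality and its equality case at half period.
-/

namespace Pool.Agent.TH229.PB

open Real MeasureTheory Set
open scoped Complex

/-- Fourier coefficient -/
noncomputable def co (f : ℝ → ℂ) (n : ℤ) : ℂ :=
  (1 / (2 * π) : ℂ) * ∫ x in (0 : ℝ)..(2 * π), Complex.exp (-(Complex.I * n * x)) * f x

theorem parseval {f : ℝ → ℂ} (hf : Continuous f) :
    HasSum (fun n => ‖co f n‖ ^ 2) ((2 * π)⁻¹ * ∫ x in (0 : ℝ)..(2 * π), ‖f x‖ ^ 2) := by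
  have hm : MemLp f 2 (volume.restrict (Ioc 0 (2 * π))) := by
    rw [memLp_two_iff_integrable_sq_norm hf.aestronglyMeasurable]
    have h1 : Continuous (fun x => ‖f x‖ ^ 2) := by fun_prop
    exact (h1.continuousOn.integrableOn_compact isCompact_Icc).mono_set Ioc_subset_Icc_self
  have h := hasSum_sq_fourierCoeffOn Real.two_pi_pos hm
  rw [sub_zero, smul_eq_mul] at h
  convert h using 4 with n
  rw [fourierCoeffOn_eq_integral, co]
  have e : ∀ x : ℝ, fourier (-n) (x : AddCircle (2 * π - 0)) • f x =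
      Complex.exp (-(Complex.I * n * x)) * f x := by
    intro x
    rw [fourier_coe_apply, smul_eq_mul]
    congr 2
    push_cast
    have : (π : ℂ) ≠ 0 := by exact_mod_cast Real.pi_ne_zero
    field_simp
    ring
  simp only [e]
  rw [Complex.real_smul, sub_zero]
  push_cast
  rfl

theorem co_shift {f : ℝ → ℂ} (hp : ∀ x, f (x + 2 * π) = f x) (d : ℝ) (n : ℤ) :
    co (fun x => f (x + d)) n = Complex.exp (Complex.I * n * d) * co f n := by
  unfold co
  set g : ℝ → ℂ := fun x => Complex.exp (-(Complex.I * n * x)) * f x with hg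
  have hgp : Function.Periodic g (2 * π) := by
    intro x
    simp only [hg, hp]
    congr 1
    have : -(Complex.I * n * ((x + 2 * π : ℝ) : ℂ)) =
        -(Complex.I * n * x) + (-n : ℤ) * (2 * π * Complex.I) := by push_cast; ring
    rw [this, Complex.exp_add, Complex.exp_int_mul_two_pi_mul_I, mul_one]
  have e : ∀ x : ℝ, Complex.exp (-(Complex.I * n * x)) * f (x + d) =
      Complex.exp (Complex.I * n * d) * g (x + d) := by
    intro x
    simp only [hg]
    rw [← mul_assoc, ← Complex.exp_add]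
    congr 2
    push_cast; ring
  simp only [e]
  rw [intervalIntegral.integral_const_mul]
  have h2 : ∫ x in (0 : ℝ)..(2 * π), g (x + d) = ∫ x in (0 : ℝ)..(2 * π), g x := by
    rw [intervalIntegral.integral_comp_add_right]
    have := hgp.intervalIntegral_add_eq d 0
    rw [zero_add] at this ⊢
    rw [← this, add_comm]
  rw [h2]; ring

theorem co_deriv {f f' : ℝ → ℂ} (hf : ∀ x, HasDerivAt f (f' x) x) (hc : Continuous f')
    (hp : ∀ x, f (x + 2 * π) = f x) (n : ℤ) :
    co f' n = (Complex.I * n) * co f n := by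
  have hfc : Continuous f := by
    rw [continuous_iff_continuousAt]; exact fun x => (hf x).continuousAt
  unfold co
  have he : ∀ x : ℝ, HasDerivAt (fun x : ℝ => Complex.exp (-(Complex.I * n * x)))
      (-(Complex.I * n) * Complex.exp (-(Complex.I * n * x))) x := by
    intro x
    have h1 : HasDerivAt (fun x : ℝ => -(Complex.I * n * (x : ℂ))) (-(Complex.I * n)) x := by
      have := (Complex.ofRealCLM.hasDerivAt (x := x)).const_mul (-(Complex.I * n))
      simpa [neg_mul] using this
    refine h1.cexp.congr_deriv ?_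
    ring
  have h := intervalIntegral.integral_mul_deriv_eq_deriv_mul (a := 0) (b := 2 * π)
    (u := fun x : ℝ => Complex.exp (-(Complex.I * n * x))) (v := f)
    (u' := fun x : ℝ => -(Complex.I * n) * Complex.exp (-(Complex.I * n * x))) (v' := f')
    (fun x _ => he x) (fun x _ => hf x)
    (by
      have : Continuous (fun x : ℝ => -(Complex.I * n) * Complex.exp (-(Complex.I * n * x))) := by
        fun_prop
      exact this.intervalIntegrable _ _) (hc.intervalIntegrable _ _)
  rw [h]
  have e0 : f (2 * π) = f 0 := by have := hp 0; rwa [zero_add] at this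
  have e1 : Complex.exp (-(Complex.I * n * ((2 * π : ℝ) : ℂ))) = 1 := by
    have : -(Complex.I * n * ((2 * π : ℝ) : ℂ)) = (-n : ℤ) * (2 * π * Complex.I) := by
      push_cast; ring
    rw [this, Complex.exp_int_mul_two_pi_mul_I]
  rw [e0, e1]
  have e2 : ∀ x : ℝ, -(Complex.I * n) * Complex.exp (-(Complex.I * n * x)) * f x =
      -(Complex.I * n) * (Complex.exp (-(Complex.I * n * x)) * f x) := fun x => by ring
  simp only [e2]
  rw [intervalIntegral.integral_const_mul]
  simp
  ring

theorem co_sub {f g : ℝ → ℂ} (hf : Continuous f) (hg : Continuous g) (n : ℤ) :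
    co (fun x => f x - g x) n = co f n - co g n := by
  unfold co
  have e : ∀ x : ℝ, Complex.exp (-(Complex.I * n * x)) * (f x - g x) =
    Complex.exp (-(Complex.I * n * x)) * f x - Complex.exp (-(Complex.I * n * x)) * g x :=
    fun x => by ring
  simp only [e]
  rw [intervalIntegral.integral_sub, mul_sub]
  · exact Continuous.intervalIntegrable (by fun_prop) _ _
  · exact Continuous.intervalIntegrable (by fun_prop) _ _

theorem co_add {f g : ℝ → ℂ} (hf : Continuous f) (hg : Continuous g) (n : ℤ) :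
    co (fun x => f x + g x) n = co f n + co g n := by
  unfold co
  have e : ∀ x : ℝ, Complex.exp (-(Complex.I * n * x)) * (f x + g x) =
    Complex.exp (-(Complex.I * n * x)) * f x + Complex.exp (-(Complex.I * n * x)) * g x :=
    fun x => by ring
  simp only [e]
  rw [intervalIntegral.integral_add, mul_add]
  · exact Continuous.intervalIntegrable (by fun_prop) _ _
  · exact Continuous.intervalIntegrable (by fun_prop) _ _

theorem abs_sin_nat_mul (n : ℕ) (t : ℝ) : |Real.sin (n * t)| ≤ n * |Real.sin t| := by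
  induction n with
  | zero => simp
  | succ n ih =>
    have e : ((n + 1 : ℕ) : ℝ) * t = n * t + t := by push_cast; ring
    rw [e, Real.sin_add]
    calc |Real.sin (n * t) * Real.cos t + Real.cos (n * t) * Real.sin t|
        ≤ |Real.sin (n * t) * Real.cos t| + |Real.cos (n * t) * Real.sin t| := abs_add_le _ _
      _ = |Real.sin (n * t)| * |Real.cos t| + |Real.cos (n * t)| * |Real.sin t| := by
        rw [abs_mul, abs_mul]
      _ ≤ |Real.sin (n * t)| * 1 + 1 * |Real.sin t| := by
        gcongr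
        · exact Real.abs_cos_le_one _
        · exact Real.abs_cos_le_one _
      _ ≤ n * |Real.sin t| * 1 + 1 * |Real.sin t| := by gcongr
      _ = _ := by push_cast; ring

theorem sin_int_mul_sq (n : ℤ) (t : ℝ) :
    Real.sin (n * t) ^ 2 ≤ (n : ℝ) ^ 2 * Real.sin t ^ 2 := by
  obtain ⟨m, rfl | rfl⟩ := n.eq_nat_or_neg
  · have := abs_sin_nat_mul m t
    rw [← sq_abs (Real.sin t), ← mul_pow, ← sq_abs (Real.sin _)]
    push_cast
    gcongr
  · have := abs_sin_nat_mul m t
    rw [← sq_abs (Real.sin t), ← sq_abs (Real.sin _)]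
    push_cast
    rw [neg_mul, Real.sin_neg, abs_neg, neg_sq, ← mul_pow]
    gcongr

theorem norm_exp_sub_one_sq (t : ℝ) :
    ‖Complex.exp (Complex.I * t) - 1‖ ^ 2 = 4 * Real.sin (t / 2) ^ 2 := by
  rw [← Complex.normSq_eq_norm_sq, Complex.normSq_apply]
  have h1 : (Complex.exp (Complex.I * t) - 1).re = Real.cos t - 1 := by
    rw [mul_comm, Complex.sub_re, Complex.exp_ofReal_mul_I_re]; simp
  have h2 : (Complex.exp (Complex.I * t) - 1).im = Real.sin t := by
    rw [mul_comm, Complex.sub_im, Complex.exp_ofReal_mul_I_im]; simp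
  rw [h1, h2]
  have e1 : Real.cos t = 1 - 2 * Real.sin (t / 2) ^ 2 := by
    have := Real.cos_two_mul (t / 2)
    have h3 := Real.sin_sq_add_cos_sq (t / 2)
    have e : 2 * (t / 2) = t := by ring
    rw [e] at this
    linarith
  have h4 := Real.sin_sq_add_cos_sq t
  nlinarith

section real
variable {w w1 : ℝ → ℝ} (hw : ∀ x, HasDerivAt w (w1 x) x) (hc : Continuous w1)
  (hp : ∀ x, w (x + 2 * π) = w x)
include hw hc hp

theorem hasSum_chord (d : ℝ) :
    HasSum (fun n : ℤ => 4 * Real.sin (n * (d / 2)) ^ 2 * ‖co (fun x => (w x : ℂ)) n‖ ^ 2)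
      ((2 * π)⁻¹ * ∫ x in (0 : ℝ)..(2 * π), (w (x + d) - w x) ^ 2) := by
  have hwc : Continuous w := by
    rw [continuous_iff_continuousAt]; exact fun x => (hw x).continuousAt
  have h := parseval (f := fun x => ((w (x + d) : ℝ) : ℂ) - ((w x : ℝ) : ℂ)) (by fun_prop)
  convert h using 1
  · funext n
    rw [co_sub (by fun_prop) (by fun_prop)]
    have := co_shift (f := fun x => (w x : ℂ)) (fun x => by simp only [hp]) d n
    rw [this]
    have e : Complex.exp (Complex.I * n * d) * co (fun x => (w x : ℂ)) n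
        - co (fun x => (w x : ℂ)) n =
        (Complex.exp (Complex.I * ((n * d : ℝ) : ℂ)) - 1) * co (fun x => (w x : ℂ)) n := by
      push_cast; rw [sub_mul, one_mul, mul_assoc]
    rw [e, norm_mul, mul_pow, norm_exp_sub_one_sq]
    ring_nf
  · congr 1
    refine intervalIntegral.integral_congr fun x _ => ?_
    rw [← Complex.ofReal_sub, Complex.norm_real, Real.norm_eq_abs, sq_abs]

theorem hasSum_deriv :
    HasSum (fun n : ℤ => (n : ℝ) ^ 2 * ‖co (fun x => (w x : ℂ)) n‖ ^ 2)
      ((2 * π)⁻¹ * ∫ x in (0 : ℝ)..(2 * π), (w1 x) ^ 2) := by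
  have h := parseval (f := fun x => ((w1 x : ℝ) : ℂ)) (by fun_prop)
  convert h using 1
  · funext n
    have := co_deriv (f := fun x => (w x : ℂ)) (f' := fun x => (w1 x : ℂ))
      (fun x => (hw x).ofReal_comp) (by fun_prop) (fun x => by simp only [hp]) n
    rw [this, norm_mul, mul_pow, norm_mul, Complex.norm_I, one_mul, Complex.norm_intCast, sq_abs]
  · congr 1
    refine intervalIntegral.integral_congr fun x _ => ?_
    rw [Complex.norm_real, Real.norm_eq_abs, sq_abs]

/-- chord inequality -/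
theorem chord_le (d : ℝ) :
    ∫ x in (0 : ℝ)..(2 * π), (w (x + d) - w x) ^ 2 ≤
      4 * Real.sin (d / 2) ^ 2 * ∫ x in (0 : ℝ)..(2 * π), (w1 x) ^ 2 := by
  have h1 := hasSum_chord hw hc hp d
  have h2 := (hasSum_deriv hw hc hp).mul_left (4 * Real.sin (d / 2) ^ 2)
  have h3 := hasSum_le (fun n => by
    have := sin_int_mul_sq n (d / 2)
    have h0 : 0 ≤ ‖co (fun x => (w x : ℂ)) n‖ ^ 2 := by positivity
    nlinarith) h1 h2
  have hpi := Real.two_pi_pos
  have h4 : (2 * π)⁻¹ * ∫ x in (0 : ℝ)..(2 * π), (w (x + d) - w x) ^ 2 ≤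
      (2 * π)⁻¹ * (4 * Real.sin (d / 2) ^ 2 * ∫ x in (0 : ℝ)..(2 * π), (w1 x) ^ 2) := by
    calc _ ≤ _ := h3
      _ = _ := by ring
  exact le_of_mul_le_mul_left h4 (by positivity)

/-- equality case at half period: only frequencies `0, ±1` -/
theorem co_zero_of_eq
    (heq : ∫ x in (0 : ℝ)..(2 * π), (w (x + π) - w x) ^ 2 =
      4 * ∫ x in (0 : ℝ)..(2 * π), (w1 x) ^ 2) (n : ℤ) (hn : 2 ≤ |n|) :
    co (fun x => (w x : ℂ)) n = 0 := by
  have h1 := hasSum_chord hw hc hp π
  have h2 := (hasSum_deriv hw hc hp).mul_left 4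
  have h3 := h2.sub h1
  rw [heq] at h3
  have e : 4 * ((2 * π)⁻¹ * ∫ x in (0 : ℝ)..(2 * π), (w1 x) ^ 2) -
      (2 * π)⁻¹ * (4 * ∫ x in (0 : ℝ)..(2 * π), (w1 x) ^ 2) = 0 := by ring
  rw [e] at h3
  have h4 : ∀ m : ℤ, 0 ≤ 4 * ((m : ℝ) ^ 2 * ‖co (fun x => (w x : ℂ)) m‖ ^ 2) -
      4 * Real.sin (m * (π / 2)) ^ 2 * ‖co (fun x => (w x : ℂ)) m‖ ^ 2 := by
    intro m
    have := sin_int_mul_sq m (π / 2)
    rw [Real.sin_pi_div_two, one_pow, mul_one] at this
    have h0 : 0 ≤ ‖co (fun x => (w x : ℂ)) m‖ ^ 2 := by positivity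
    nlinarith
  have h5 := (hasSum_zero_iff_of_nonneg h4).mp h3
  have h6 := congrFun h5 n
  simp only [Pi.zero_apply] at h6
  have h7 : (4 : ℝ) ≤ (n : ℝ) ^ 2 := by
    have : (2 : ℝ) ≤ |(n : ℝ)| := by exact_mod_cast hn
    rw [← sq_abs]; nlinarith
  have h8 : Real.sin (n * (π / 2)) ^ 2 ≤ 1 := Real.sin_sq_le_one _
  have h9 : ‖co (fun x => (w x : ℂ)) n‖ ^ 2 = 0 := by
    have h0 : 0 ≤ ‖co (fun x => (w x : ℂ)) n‖ ^ 2 := by positivity
    by_contra hne
    have hpos : 0 < ‖co (fun x => (w x : ℂ)) n‖ ^ 2 := lt_of_le_of_ne h0 (Ne.symm hne)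
    nlinarith
  have h10 : ‖co (fun x => (w x : ℂ)) n‖ = 0 := by
    exact pow_eq_zero_iff (two_ne_zero) |>.mp h9
  exact norm_eq_zero.mp h10

end real

/-- rigidity in the equality case -/
theorem rigid {w w1 w2 w3 : ℝ → ℝ} (h1 : ∀ x, HasDerivAt w (w1 x) x)
    (h2 : ∀ x, HasDerivAt w1 (w2 x) x) (h3 : ∀ x, HasDerivAt w2 (w3 x) x)
    (hc : Continuous w3) (hp : ∀ x, w (x + 2 * π) = w x)
    (hp1 : ∀ x, w1 (x + 2 * π) = w1 x) (hp2 : ∀ x, w2 (x + 2 * π) = w2 x)
    (heq : ∫ x in (0 : ℝ)..(2 * π), (w (x + π) - w x) ^ 2 =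
      4 * ∫ x in (0 : ℝ)..(2 * π), (w1 x) ^ 2) :
    ∃ a b c : ℝ, ∀ x, w x = a + b * Real.cos x + c * Real.sin x := by
  have hc2 : Continuous w2 := by
    rw [continuous_iff_continuousAt]; exact fun x => (h3 x).continuousAt
  have hc1 : Continuous w1 := by
    rw [continuous_iff_continuousAt]; exact fun x => (h2 x).continuousAt
  have hcf : ∀ n : ℤ, co (fun x => ((w3 x : ℝ) : ℂ) + ((w1 x : ℝ) : ℂ)) n = 0 := by
    intro n
    rw [co_add (by fun_prop) (by fun_prop)]
    have d1 := co_deriv (f := fun x => (w x : ℂ)) (f' := fun x => (w1 x : ℂ))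
      (fun x => (h1 x).ofReal_comp) (by fun_prop) (fun x => by simp only [hp]) n
    have d2 := co_deriv (f := fun x => (w1 x : ℂ)) (f' := fun x => (w2 x : ℂ))
      (fun x => (h2 x).ofReal_comp) (by fun_prop) (fun x => by simp only [hp1]) n
    have d3 := co_deriv (f := fun x => (w2 x : ℂ)) (f' := fun x => (w3 x : ℂ))
      (fun x => (h3 x).ofReal_comp) (by fun_prop) (fun x => by simp only [hp2]) n
    rw [d3, d2, d1]
    by_cases hn : 2 ≤ |n|
    · rw [co_zero_of_eq h1 hc1 hp heq n hn]; ring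
    · have hn' : n = 0 ∨ n = 1 ∨ n = -1 := by
        rw [not_le] at hn
        rcases abs_lt.mp hn with ⟨ha, hb⟩
        omega
      rcases hn' with rfl | rfl | rfl
      · simp
      · have : Complex.I * Complex.I = -1 := Complex.I_mul_I
        push_cast
        linear_combination (Complex.I * co (fun x => (w x : ℂ)) 1) * this
      · have : Complex.I * Complex.I = -1 := Complex.I_mul_I
        push_cast
        linear_combination (-Complex.I * co (fun x => (w x : ℂ)) (-1)) * this
  have hP := parseval (f := fun x => ((w3 x : ℝ) : ℂ) + ((w1 x : ℝ) : ℂ)) (by fun_prop)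
  simp only [hcf, norm_zero] at hP
  have hz : (2 * π)⁻¹ * ∫ x in (0 : ℝ)..(2 * π), ‖((w3 x : ℝ) : ℂ) + ((w1 x : ℝ) : ℂ)‖ ^ 2 = 0 := by
    have h0 : HasSum (fun _ : ℤ => (0 : ℝ) ^ 2) 0 := by
      simpa using (hasSum_zero : HasSum (fun _ : ℤ => (0 : ℝ)) 0)
    exact hP.unique h0
  have hz2 : ∫ x in (0 : ℝ)..(2 * π), (w3 x + w1 x) ^ 2 = 0 := by
    have e : ∀ x : ℝ, ‖((w3 x : ℝ) : ℂ) + ((w1 x : ℝ) : ℂ)‖ ^ 2 = (w3 x + w1 x) ^ 2 := by
      intro x
      rw [← Complex.ofReal_add, Complex.norm_real, Real.norm_eq_abs, sq_abs]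
    simp only [e] at hz
    have hpi := Real.two_pi_pos
    rcases mul_eq_zero.mp hz with h | h
    · exact absurd h (by positivity)
    · exact h
  have hcont : Continuous (fun x => (w3 x + w1 x) ^ 2) := by fun_prop
  have hzero : ∀ x ∈ Icc (0 : ℝ) (2 * π), w3 x + w1 x = 0 := by
    by_contra hne
    push Not at hne
    obtain ⟨x, hx, hxne⟩ := hne
    have := intervalIntegral.integral_pos (a := 0) (b := 2 * π)
      (f := fun x => (w3 x + w1 x) ^ 2) Real.two_pi_pos hcont.continuousOn
      (fun x _ => sq_nonneg _) ⟨x, hx, by positivity⟩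
    linarith
  -- ODE
  set a : ℝ := w 0 + w2 0 with ha
  have hconst : ∀ x ∈ Icc (0 : ℝ) (2 * π), w x + w2 x = a := by
    intro x hx
    have hd : ∀ y, HasDerivAt (fun x => w x + w2 x) (w1 y + w3 y) y := fun y => (h1 y).add (h3 y)
    have := intervalIntegral.integral_eq_sub_of_hasDerivAt (a := 0) (b := x)
      (f := fun x => w x + w2 x) (f' := fun x => w1 x + w3 x) (fun y _ => hd y)
      ((hc1.add hc).intervalIntegrable _ _)
    have h0 : ∫ y in (0 : ℝ)..x, (w1 y + w3 y) = 0 := by
      have : ∫ y in (0 : ℝ)..x, (w1 y + w3 y) = ∫ y in (0 : ℝ)..x, (0 : ℝ) := by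
        refine intervalIntegral.integral_congr fun y hy => ?_
        rw [uIcc_of_le hx.1] at hy
        have := hzero y ⟨hy.1, hy.2.trans hx.2⟩
        linarith
      rw [this]; simp
    rw [h0] at this
    simp only [ha]; linarith
  have hsol : ∀ x ∈ Icc (0 : ℝ) (2 * π),
      w x = a + (w 0 - a) * Real.cos x + w1 0 * Real.sin x := by
    intro x hx
    -- first integrals
    have d1 : ∀ y, HasDerivAt (fun x => (w x - a) * Real.cos x - w1 x * Real.sin x)
        (-(w y + w2 y - a) * Real.sin y) y := by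
      intro y
      have := (((h1 y).sub_const a).mul (Real.hasDerivAt_cos y)).sub
        ((h2 y).mul (Real.hasDerivAt_sin y))
      refine this.congr_deriv ?_; ring
    have d2 : ∀ y, HasDerivAt (fun x => (w x - a) * Real.sin x + w1 x * Real.cos x)
        ((w y + w2 y - a) * Real.cos y) y := by
      intro y
      have := (((h1 y).sub_const a).mul (Real.hasDerivAt_sin y)).add
        ((h2 y).mul (Real.hasDerivAt_cos y))
      refine this.congr_deriv ?_; ring
    have hwc : Continuous w := by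
      rw [continuous_iff_continuousAt]; exact fun x => (h1 x).continuousAt
    have i1 := intervalIntegral.integral_eq_sub_of_hasDerivAt (a := 0) (b := x)
      (fun y _ => d1 y) (Continuous.intervalIntegrable (by fun_prop) _ _)
    have i2 := intervalIntegral.integral_eq_sub_of_hasDerivAt (a := 0) (b := x)
      (fun y _ => d2 y) (Continuous.intervalIntegrable (by fun_prop) _ _)
    have z1 : ∫ y in (0 : ℝ)..x, (-(w y + w2 y - a) * Real.sin y) = 0 := by
      have : ∫ y in (0 : ℝ)..x, (-(w y + w2 y - a) * Real.sin y) = ∫ y in (0 : ℝ)..x, (0 : ℝ) := by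
        refine intervalIntegral.integral_congr fun y hy => ?_
        rw [uIcc_of_le hx.1] at hy
        have := hconst y ⟨hy.1, hy.2.trans hx.2⟩
        rw [this]; ring
      rw [this]; simp
    have z2 : ∫ y in (0 : ℝ)..x, ((w y + w2 y - a) * Real.cos y) = 0 := by
      have : ∫ y in (0 : ℝ)..x, ((w y + w2 y - a) * Real.cos y) = ∫ y in (0 : ℝ)..x, (0 : ℝ) := by
        refine intervalIntegral.integral_congr fun y hy => ?_
        rw [uIcc_of_le hx.1] at hy
        have := hconst y ⟨hy.1, hy.2.trans hx.2⟩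
        rw [this]; ring
      rw [this]; simp
    rw [z1] at i1
    rw [z2] at i2
    simp only [Real.cos_zero, Real.sin_zero, mul_one, mul_zero, sub_zero, zero_add] at i1 i2
    have hsc := Real.sin_sq_add_cos_sq x
    have : w x - a = ((w x - a) * Real.cos x - w1 x * Real.sin x) * Real.cos x +
        ((w x - a) * Real.sin x + w1 x * Real.cos x) * Real.sin x := by
      have : ((w x - a) * Real.cos x - w1 x * Real.sin x) * Real.cos x +
        ((w x - a) * Real.sin x + w1 x * Real.cos x) * Real.sin x =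
        (w x - a) * (Real.sin x ^ 2 + Real.cos x ^ 2) := by ring
      rw [this, hsc, mul_one]
    have e1 : (w x - a) * Real.cos x - w1 x * Real.sin x = w 0 - a := by linarith
    have e2 : (w x - a) * Real.sin x + w1 x * Real.cos x = w1 0 := by linarith
    rw [e1, e2] at this
    linarith
  refine ⟨a, w 0 - a, w1 0, fun x => ?_⟩
  have hpw : Function.Periodic (fun x => w x - (a + (w 0 - a) * Real.cos x + w1 0 * Real.sin x))
      (2 * π) := by
    intro x
    simp only [hp, Real.cos_add_two_pi, Real.sin_add_two_pi]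
  obtain ⟨y, hy, hxy⟩ := hpw.exists_mem_Ico₀ Real.two_pi_pos x
  have := hsol y ⟨hy.1, hy.2.le⟩
  linarith

end Pool.Agent.TH229.PB
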