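import Pool.Agent.TH229.PB.Limit
import Pool.Agent.TH229.PB.Four

/-!
Evaluation of the total integral of `gf` and the rigidity of `w`.
-/

namespace Pool.Agent.TH229.PB

open Real Set MeasureTheory Filter Topology

theorem tendsto_ratio (k : ℝ) {l : Filter ℝ} (hl : Tendsto (fun y : ℝ => |k - y|) l atTop) :
    Tendsto (fun y : ℝ => (1 + y ^ 2) / (1 + (k - y) ^ 2)) l (𝓝 1) := by
  have h1 : Tendsto (fun y : ℝ => (2 * |k| + k ^ 2) * |k - y|⁻¹) l (𝓝 0) := by
    have := (tendsto_inv_atTop_zero.comp hl).const_mul (2 * |k| + k ^ 2)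
    simpa using this
  have h2 : Tendsto (fun y : ℝ => (1 + y ^ 2) / (1 + (k - y) ^ 2) - 1) l (𝓝 0) := by
    refine squeeze_zero_norm' ?_ h1
    filter_upwards [hl.eventually_gt_atTop 0] with y hy
    have e : (1 + y ^ 2) / (1 + (k - y) ^ 2) - 1 =
        (k ^ 2 - 2 * k * (k - y)) / (1 + (k - y) ^ 2) := by
      field_simp; ring
    rw [e, Real.norm_eq_abs, abs_div, abs_of_pos (one_add_sq_pos (k - y)),
      div_le_iff₀ (one_add_sq_pos (k - y))]
    have h3 : |k ^ 2 - 2 * k * (k - y)| ≤ k ^ 2 + 2 * |k| * |k - y| := by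
      calc _ ≤ |k ^ 2| + |2 * k * (k - y)| := abs_sub _ _
        _ = _ := by rw [abs_mul, abs_mul, abs_two, abs_of_nonneg (sq_nonneg k)]
    have h4 : |k - y|⁻¹ * |k - y| = 1 := inv_mul_cancel₀ hy.ne'
    have h5 : (k - y) ^ 2 = |k - y| ^ 2 := (sq_abs _).symm
    rw [h5]
    set u := |k - y| with hu
    have hk := abs_nonneg k
    have h6 : u⁻¹ * (1 + u ^ 2) = u⁻¹ + u := by
      have : u⁻¹ * (1 + u ^ 2) = u⁻¹ + (u⁻¹ * u) * u := by ring
      rw [this, h4, one_mul]
    have h7 : 0 < u⁻¹ := inv_pos.mpr hy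
    have h8 : 1 ≤ u⁻¹ + u := by
      have : 0 ≤ (u - 1) ^ 2 * u⁻¹ := by positivity
      have h9 : (u - 1) ^ 2 * u⁻¹ = u * (u⁻¹ * u) - 2 * (u⁻¹ * u) + u⁻¹ := by ring
      rw [h9, h4] at this
      linarith
    calc |k ^ 2 - 2 * k * (k - y)| ≤ k ^ 2 + 2 * |k| * u := h3
      _ ≤ k ^ 2 * (u⁻¹ + u) + 2 * |k| * (u⁻¹ + u) := by
        have a1 : k ^ 2 ≤ k ^ 2 * (u⁻¹ + u) := by nlinarith [sq_nonneg k]
        have a2 : 2 * |k| * u ≤ 2 * |k| * (u⁻¹ + u) := by
          have : 0 ≤ 2 * |k| * u⁻¹ := by positivity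
          linarith
        linarith
      _ = (2 * |k| + k ^ 2) * u⁻¹ * (1 + u ^ 2) := by
        have h10 : (2 * |k| + k ^ 2) * u⁻¹ * (1 + u ^ 2) =
            (2 * |k| + k ^ 2) * (u⁻¹ * (1 + u ^ 2)) := by ring
        rw [h10, h6]; ring
  have h3 := h2.add_const 1
  simpa using h3

theorem integral_m (k : ℝ) (hi : Integrable (fun y : ℝ =>
    y / (1 + y ^ 2) + (k - y) / (1 + (k - y) ^ 2))) :
    ∫ y : ℝ, (y / (1 + y ^ 2) + (k - y) / (1 + (k - y) ^ 2)) = 0 := by
  have hd : ∀ y : ℝ, HasDerivAt (fun y : ℝ => Real.log ((1 + y ^ 2) / (1 + (k - y) ^ 2)) / 2)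
      (y / (1 + y ^ 2) + (k - y) / (1 + (k - y) ^ 2)) y := by
    intro y
    have h1 : HasDerivAt (fun y : ℝ => 1 + y ^ 2) (2 * y) y := by
      simpa using ((hasDerivAt_id y).pow 2).const_add 1
    have h2 : HasDerivAt (fun y : ℝ => 1 + (k - y) ^ 2) (-2 * (k - y)) y := by
      have := (((hasDerivAt_id y).const_sub k).pow 2).const_add 1
      refine this.congr_deriv ?_
      simp
    have h3 : HasDerivAt (fun y : ℝ => (1 + y ^ 2) / (1 + (k - y) ^ 2))
        ((2 * y * (1 + (k - y) ^ 2) - (1 + y ^ 2) * (-2 * (k - y))) / (1 + (k - y) ^ 2) ^ 2) y :=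
      h1.div h2 (one_add_sq_pos (k - y)).ne'
    have h4 := (h3.log (by positivity)).div_const 2
    refine h4.congr_deriv ?_
    field_simp
    ring
  have ht : ∀ l : Filter ℝ, Tendsto (fun y : ℝ => |k - y|) l atTop →
      Tendsto (fun y : ℝ => Real.log ((1 + y ^ 2) / (1 + (k - y) ^ 2)) / 2) l (𝓝 0) := by
    intro l hl
    have h1 := tendsto_ratio k hl
    have h2 := (Real.continuousAt_log (one_ne_zero)).tendsto.comp h1
    have h3 := h2.div_const 2
    simpa using h3
  have hbot : Tendsto (fun y : ℝ => |k - y|) atBot atTop :=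
    tendsto_abs_atTop_atTop.comp (tendsto_atTop_add_const_left _ k tendsto_neg_atBot_atTop)
  have htop : Tendsto (fun y : ℝ => |k - y|) atTop atTop :=
    tendsto_abs_atBot_atTop.comp (tendsto_atBot_add_const_left _ k tendsto_neg_atTop_atBot)
  have := integral_of_hasDerivAt_of_tendsto hd hi (ht _ hbot) (ht _ htop)
  simpa using this

section
variable {K K1 w w1 w2 w3 w4 : ℝ → ℝ} (D : Dat K K1 w w1 w2 w3 w4)
include D

theorem rho_cont : Continuous (fun p : ℝ × ℝ => rho w w1 w2 w3 p.1 p.2) := by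
  have := D.per.c0
  have := D.per.c1
  have := D.per.c2
  have := D.per.c3
  have := continuous_dl
  have := continuous_cc
  unfold rho
  have h : Continuous (fun p : ℝ × ℝ => p.2 / (1 + p.2 ^ 2)) :=
    Continuous.div (by fun_prop) (by fun_prop) (fun p => (one_add_sq_pos p.2).ne')
  fun_prop

theorem rho_int (x : ℝ) : Integrable (fun y => rho w w1 w2 w3 x y) := by
  obtain ⟨C, hC, hb⟩ := rho_bound D
  have h1 : Integrable (fun y : ℝ => C / (1 + y ^ 2)) := by
    have := (integrable_inv_one_add_sq).const_mul C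
    refine this.congr (Eventually.of_forall fun y => ?_)
    simp only [div_eq_mul_inv]
  have h2 : Continuous (fun y : ℝ => rho w w1 w2 w3 x y) := by
    have := D.per.c0
    have := continuous_dl
    have := continuous_cc
    unfold rho
    have h : Continuous (fun y : ℝ => y / (1 + y ^ 2)) :=
      Continuous.div (by fun_prop) (by fun_prop) (fun y => (one_add_sq_pos y).ne')
    fun_prop
  exact h1.mono' h2.aestronglyMeasurable (Eventually.of_forall fun y => hb x y)

theorem m_int (k : ℝ) : Integrable (fun y : ℝ =>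
    y / (1 + y ^ 2) + (k - y) / (1 + (k - y) ^ 2)) := by
  have h1 : Integrable (fun y : ℝ => |k| * (1 + |k|) / (1 + y ^ 2)) := by
    have := (integrable_inv_one_add_sq).const_mul (|k| * (1 + |k|))
    refine this.congr (Eventually.of_forall fun y => ?_)
    simp only [div_eq_mul_inv]
  refine h1.mono' ?_ (Eventually.of_forall fun y => m_bound D (le_refl _))
  have h2 : Continuous (fun y : ℝ => y / (1 + y ^ 2) + (k - y) / (1 + (k - y) ^ 2)) := by
    refine Continuous.add ?_ ?_
    · exact Continuous.div (by fun_prop) (by fun_prop) (fun y => (one_add_sq_pos y).ne')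
    · exact Continuous.div (by fun_prop) (by fun_prop) (fun y => (one_add_sq_pos (k - y)).ne')
  exact h2.aestronglyMeasurable

theorem inner_int (x : ℝ) : ∫ y, gf K K1 w (x, y) = ∫ y, 2 * w x * rho w w1 w2 w3 x y := by
  simp only [gf_eq D]
  have i1 := rho_int D x
  have i2 : Integrable (fun y => rho w w1 w2 w3 x (K x - y)) := i1.comp_sub_left (K x)
  have i3 := m_int D (K x)
  rw [integral_const_mul, integral_const_mul]
  have e1 : ∫ y, (rho w w1 w2 w3 x y + rho w w1 w2 w3 x (K x - y) +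
      (2 / 3) * (w3 x + w1 x) * (y / (1 + y ^ 2) + (K x - y) / (1 + (K x - y) ^ 2))) =
      (∫ y, rho w w1 w2 w3 x y) + (∫ y, rho w w1 w2 w3 x (K x - y)) +
      (2 / 3) * (w3 x + w1 x) *
        ∫ y, (y / (1 + y ^ 2) + (K x - y) / (1 + (K x - y) ^ 2)) := by
    have a1 := integral_add (i1.add i2) (i3.const_mul ((2 / 3) * (w3 x + w1 x)))
    have a2 := integral_add i1 i2
    simp only [Pi.add_apply] at a1
    rw [a1, a2, integral_const_mul]
  rw [e1, integral_m _ i3, integral_sub_left_eq_self (fun y => rho w w1 w2 w3 x y)]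
  ring

/-- integral of `2 w rho` over the circle -/
noncomputable def GG (w w1 : ℝ → ℝ) (y : ℝ) : ℝ :=
  2 * (∫ x in (0 : ℝ)..(2 * π), w1 x ^ 2) -
    cc y * ∫ x in (0 : ℝ)..(2 * π), (w (x + dl y) - w x) ^ 2

theorem int_deriv_per {f f' : ℝ → ℝ} (hf : ∀ x, HasDerivAt f (f' x) x) (hc : Continuous f')
    (hp : ∀ x, f (x + 2 * π) = f x) : ∫ x in (0 : ℝ)..(2 * π), f' x = 0 := by
  rw [intervalIntegral.integral_eq_sub_of_hasDerivAt (fun x _ => hf x)
    (hc.intervalIntegrable _ _)]
  have := hp 0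
  rw [zero_add] at this
  rw [this, sub_self]

theorem outer_int (y : ℝ) :
    ∫ x in Ioc 0 (2 * π), 2 * w x * rho w w1 w2 w3 x y = GG w w1 y := by
  have c0 := D.per.c0
  have c1 := D.per.c1
  have c2 := D.per.c2
  have c3 := D.per.c3
  rw [← intervalIntegral.integral_of_le Real.two_pi_pos.le]
  set m : ℝ := y / (1 + y ^ 2) with hm
  have hdecomp : ∀ x, 2 * w x * rho w w1 w2 w3 x y =
      2 * w1 x ^ 2 - cc y * (w (x + dl y) - w x) ^ 2 +
      (cc y * (w (x + dl y) ^ 2) - cc y * (w x ^ 2)) +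
      (-(2 * w x * w1 x) * y - 2 * (w1 x * w1 x + w x * w2 x) -
        (4 / 3) * m * (w x * w3 x + w x * w1 x)) := by
    intro x
    unfold rho
    rw [← hm]
    ring
  have h1 : ∫ x in (0 : ℝ)..(2 * π), (-(2 * w x * w1 x) * y - 2 * (w1 x * w1 x + w x * w2 x) -
        (4 / 3) * m * (w x * w3 x + w x * w1 x)) = 0 := by
    refine int_deriv_per D (f := fun x => -(w x * w x) * y - 2 * (w x * w1 x) -
      (4 / 3) * m * (w x * w2 x - w1 x * w1 x / 2 + w x * w x / 2)) (fun x => ?_) (by fun_prop)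
      (fun x => ?_)
    · have d1 := D.per.d1 x
      have d2 := D.per.d2 x
      have d3 := D.per.d3 x
      have := ((((d1.mul d1).neg).mul_const y).sub ((d1.mul d2).const_mul 2)).sub
        ((((d1.mul d3).sub ((d2.mul d2).div_const 2)).add ((d1.mul d1).div_const 2)).const_mul
          ((4 / 3) * m))
      refine this.congr_deriv ?_
      ring
    · simp only [D.per.p0, D.per.p1, D.per.p2]
  have h2 : ∫ x in (0 : ℝ)..(2 * π), (cc y * (w (x + dl y) ^ 2) - cc y * (w x ^ 2)) = 0 := by
    rw [intervalIntegral.integral_sub (Continuous.intervalIntegrable (by fun_prop) _ _)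
      (Continuous.intervalIntegrable (by fun_prop) _ _)]
    have hper : Function.Periodic (fun x => cc y * (w x ^ 2)) (2 * π) := by
      intro x; simp only [D.per.p0]
    have h3 : ∫ x in (0 : ℝ)..(2 * π), cc y * (w (x + dl y) ^ 2) =
        ∫ x in (0 : ℝ)..(2 * π), cc y * (w x ^ 2) := by
      rw [intervalIntegral.integral_comp_add_right (fun x => cc y * (w x ^ 2)) (dl y)]
      have := hper.intervalIntegral_add_eq (dl y) 0
      rw [zero_add] at this ⊢
      rw [← this, add_comm]
    rw [h3, sub_self]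
  simp only [hdecomp]
  rw [intervalIntegral.integral_add (Continuous.intervalIntegrable (by fun_prop) _ _)
      (Continuous.intervalIntegrable (by fun_prop) _ _),
    intervalIntegral.integral_add (Continuous.intervalIntegrable (by fun_prop) _ _)
      (Continuous.intervalIntegrable (by fun_prop) _ _), h1, h2,
    intervalIntegral.integral_sub (Continuous.intervalIntegrable (by fun_prop) _ _)
      (Continuous.intervalIntegrable (by fun_prop) _ _),
    intervalIntegral.integral_const_mul, intervalIntegral.integral_const_mul]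
  unfold GG
  ring

theorem wrho_integrable : Integrable (fun p : ℝ × ℝ => 2 * w p.1 * rho w w1 w2 w3 p.1 p.2) mu := by
  obtain ⟨C, hC, hb⟩ := rho_bound D
  obtain ⟨C', hC', hb'⟩ := D.per.bdd
  have c0 := D.per.c0
  refine (integrable_inv D (2 * C' * C)).mono' ?_ (Eventually.of_forall fun p => ?_)
  · have := rho_cont D
    have h : Continuous (fun p : ℝ × ℝ => 2 * w p.1 * rho w w1 w2 w3 p.1 p.2) := by
      exact Continuous.mul (by fun_prop) this
    exact h.aestronglyMeasurable
  · rw [Real.norm_eq_abs, abs_mul, abs_mul, abs_two]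
    calc 2 * |w p.1| * |rho w w1 w2 w3 p.1 p.2| ≤ 2 * C' * (C / (1 + p.2 ^ 2)) :=
          mul_le_mul (mul_le_mul_of_nonneg_left (hb' _).1 (by norm_num)) (hb _ _)
            (abs_nonneg _) (by positivity)
      _ = _ := by ring

theorem total : ∫ p, gf K K1 w p ∂mu = ∫ y, GG w w1 y := by
  have h1 : ∫ p, gf K K1 w p ∂mu = ∫ x in Ioc 0 (2 * π), ∫ y, gf K K1 w (x, y) := by
    have := integral_prod (μ := volume.restrict (Ioc 0 (2 * π))) (ν := volume) (gf K K1 w)
      (gf_integrable D)
    exact this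
  rw [h1]
  simp only [inner_int D]
  have h2 := integral_integral_swap (μ := volume.restrict (Ioc 0 (2 * π))) (ν := volume)
    (f := fun x y => 2 * w x * rho w w1 w2 w3 x y) (wrho_integrable D)
  rw [h2]
  simp only [outer_int D]

theorem GG_integrable : Integrable (GG w w1) := by
  have := (wrho_integrable D).integral_prod_right
  simp only [outer_int D] at this
  exact this

theorem GG_nonneg (y : ℝ) : 0 ≤ GG w w1 y := by
  have h := chord_le D.per.d1 D.per.c1 D.per.p0 (dl y)
  rw [sin_half_dl_sq] at h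
  have h2 := mul_le_mul_of_nonneg_left h (cc_pos y).le
  have e : cc y * (4 * (1 / (1 + y ^ 2)) * ∫ x in (0 : ℝ)..(2 * π), w1 x ^ 2) =
      2 * ∫ x in (0 : ℝ)..(2 * π), w1 x ^ 2 := by
    unfold cc
    have := (one_add_sq_pos y).ne'
    field_simp
    ring
  unfold GG
  linarith

theorem GG_cont : Continuous (GG w w1) := by
  have c0 := D.per.c0
  have hdl := continuous_dl
  have hcc := continuous_cc
  unfold GG
  have h : Continuous (fun y => ∫ x in (0 : ℝ)..(2 * π), (w (x + dl y) - w x) ^ 2) := by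
    refine intervalIntegral.continuous_parametric_intervalIntegral_of_continuous' ?_ _ _
    show Continuous (fun p : ℝ × ℝ => (w (p.2 + dl p.1) - w p.2) ^ 2)
    fun_prop
  fun_prop

theorem GG_zero : GG w w1 0 = 0 := by
  have h1 := integral_gf_nonpos D
  rw [total D] at h1
  have h2 : ∫ y, GG w w1 y = 0 := le_antisymm h1 (integral_nonneg fun y => GG_nonneg D y)
  have h3 := (integral_eq_zero_iff_of_nonneg (fun y => GG_nonneg D y) (GG_integrable D)).mp h2
  have h4 := (Continuous.ae_eq_iff_eq volume (GG_cont D) continuous_const).mp h3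
  exact congrFun h4 0

/-- `w` has only frequencies `0, ±1` -/
theorem w_form : ∃ a b c : ℝ, ∀ x, w x = a + b * Real.cos x + c * Real.sin x := by
  refine rigid D.per.d1 D.per.d2 D.per.d3 D.per.c3 D.per.p0 D.per.p1 D.per.p2 ?_
  have h := GG_zero D
  unfold GG at h
  have h1 : dl 0 = π := by unfold dl; simp
  have h2 : cc 0 = 1 / 2 := by unfold cc; norm_num
  rw [h1, h2] at h
  linarith

end

end Pool.Agent.TH229.PB
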