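import Pool.Agent.TH229.PB.Orbit

/-!
Ground state form of the orbit inequality.
-/

namespace Pool.Agent.TH229.PB

open Real Filter Topology

/-- algebra of the ground state substitution -/
theorem ground_alg (M : ℕ) (W P c k f : ℕ → ℝ)
    (hf : ∀ n, n < M + 1 → f (n + 1) = W (n + 1) * P (n + 1)) (hf0 : f 0 = 0)
    (hfN : f (M + 2) = 0)
    (h : ∑ n ∈ Finset.range (M + 1), f (n + 1) ^ 2 * k (n + 1) ≤
      ∑ n ∈ Finset.range (M + 2), c n * (f (n + 1) - f n) ^ 2) :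
    ∑ n ∈ Finset.range (M + 1), P (n + 1) ^ 2 * (W (n + 1) *
        (c (n + 1) * (W (n + 2) - W (n + 1)) + c n * (W n - W (n + 1)) + k (n + 1) * W (n + 1))) ≤
      ∑ n ∈ Finset.range M, c (n + 1) * (W (n + 1) * W (n + 2)) * (P (n + 2) - P (n + 1)) ^ 2
        + c 0 * (W 0 * W 1) * P 1 ^ 2 + c (M + 1) * (W (M + 1) * W (M + 2)) * P (M + 1) ^ 2 := by
  have hL : ∑ n ∈ Finset.range (M + 1), f (n + 1) ^ 2 * k (n + 1) =
      ∑ n ∈ Finset.range (M + 1), (W (n + 1) * P (n + 1)) ^ 2 * k (n + 1) := by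
    refine Finset.sum_congr rfl fun n hn => ?_
    rw [hf n (Finset.mem_range.mp hn)]
  have hR : ∑ n ∈ Finset.range (M + 2), c n * (f (n + 1) - f n) ^ 2 =
      ∑ n ∈ Finset.range M, c (n + 1) * (W (n + 2) * P (n + 2) - W (n + 1) * P (n + 1)) ^ 2
        + c 0 * (W 1 * P 1) ^ 2 + c (M + 1) * (W (M + 1) * P (M + 1)) ^ 2 := by
    rw [Finset.sum_range_succ, Finset.sum_range_succ']
    rw [hfN, hf0, hf 0 (by omega), hf M (by omega)]
    have : ∑ n ∈ Finset.range M, c (n + 1) * (f (n + 1 + 1) - f (n + 1)) ^ 2 =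
        ∑ n ∈ Finset.range M, c (n + 1) *
          (W (n + 2) * P (n + 2) - W (n + 1) * P (n + 1)) ^ 2 := by
      refine Finset.sum_congr rfl fun n hn => ?_
      have := Finset.mem_range.mp hn
      rw [hf n (by omega), hf (n + 1) (by omega)]
    rw [this]
    ring
  rw [hL, hR] at h
  have h1 : ∑ n ∈ Finset.range (M + 1), P (n + 1) ^ 2 * (W (n + 1) *
        (c (n + 1) * (W (n + 2) - W (n + 1)) + c n * (W n - W (n + 1)) + k (n + 1) * W (n + 1))) =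
      ∑ n ∈ Finset.range (M + 1), (W (n + 1) * P (n + 1)) ^ 2 * k (n + 1)
      + ∑ n ∈ Finset.range (M + 1), P (n + 1) ^ 2 * (W (n + 1) *
        (c (n + 1) * (W (n + 2) - W (n + 1))))
      + ∑ n ∈ Finset.range (M + 1), P (n + 1) ^ 2 * (W (n + 1) *
        (c n * (W n - W (n + 1)))) := by
    rw [← Finset.sum_add_distrib, ← Finset.sum_add_distrib]
    refine Finset.sum_congr rfl fun n _ => ?_
    ring
  have h2 : ∑ n ∈ Finset.range (M + 1), P (n + 1) ^ 2 * (W (n + 1) *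
        (c (n + 1) * (W (n + 2) - W (n + 1)))) =
      ∑ n ∈ Finset.range M, P (n + 1) ^ 2 * (W (n + 1) *
        (c (n + 1) * (W (n + 2) - W (n + 1)))) + P (M + 1) ^ 2 * (W (M + 1) *
        (c (M + 1) * (W (M + 2) - W (M + 1)))) := by
    rw [Finset.sum_range_succ]
  have h3 : ∑ n ∈ Finset.range (M + 1), P (n + 1) ^ 2 * (W (n + 1) *
        (c n * (W n - W (n + 1)))) =
      ∑ n ∈ Finset.range M, P (n + 2) ^ 2 * (W (n + 2) *
        (c (n + 1) * (W (n + 1) - W (n + 2)))) + P 1 ^ 2 * (W 1 * (c 0 * (W 0 - W 1))) := by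
    rw [Finset.sum_range_succ']
  have h4 : ∑ n ∈ Finset.range M, c (n + 1) * (W (n + 1) * W (n + 2)) *
        (P (n + 2) - P (n + 1)) ^ 2 =
      ∑ n ∈ Finset.range M, c (n + 1) * (W (n + 2) * P (n + 2) - W (n + 1) * P (n + 1)) ^ 2
      + ∑ n ∈ Finset.range M, P (n + 1) ^ 2 * (W (n + 1) *
        (c (n + 1) * (W (n + 2) - W (n + 1))))
      + ∑ n ∈ Finset.range M, P (n + 2) ^ 2 * (W (n + 2) *
        (c (n + 1) * (W (n + 1) - W (n + 2)))) := by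
    rw [← Finset.sum_add_distrib, ← Finset.sum_add_distrib]
    refine Finset.sum_congr rfl fun n _ => ?_
    ring
  rw [h1, h2, h3, h4]
  nlinarith [h]

/-- quadratic form density -/
noncomputable def gf (K K1 w : ℝ → ℝ) (p : ℝ × ℝ) : ℝ :=
  w p.1 * (cc p.2 * (w (p.1 + dl p.2) - w p.1) +
    cc (p.2 - K p.1) * (w (p.1 - dl (p.2 - K p.1)) - w p.1) + K1 p.1 * w p.1)

/-- energy density of the cutoff -/
noncomputable def ef (K w : ℝ → ℝ) (Φ : ℝ × ℝ → ℝ) (p : ℝ × ℝ) : ℝ :=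
  cc p.2 * (w p.1 * w (p.1 + dl p.2)) * (Φ (F K p) - Φ p) ^ 2

/-- boundary densities -/
noncomputable def b1 (K w : ℝ → ℝ) (Φ : ℝ × ℝ → ℝ) (p : ℝ × ℝ) : ℝ :=
  cc p.2 * (w p.1 * w (p.1 + dl p.2)) * Φ (F K p) ^ 2

noncomputable def b2 (w : ℝ → ℝ) (Φ : ℝ × ℝ → ℝ) (p : ℝ × ℝ) : ℝ :=
  cc p.2 * (w p.1 * w (p.1 + dl p.2)) * Φ p ^ 2

/-- every point of the phase cylinder lies on an invariant leaf -/
def Cov (K : ℝ → ℝ) : Prop := ∀ x y : ℝ, ∃ τ, Leaf τ ∧ Inv K τ ∧ ph τ x = y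

theorem F_back (K : ℝ → ℝ) (q : ℝ × ℝ) : (F K q).2 - K (F K q).1 = q.2 := by
  unfold F; simp

theorem F_back' (K : ℝ → ℝ) (q : ℝ × ℝ) :
    (F K q).1 - dl ((F K q).2 - K (F K q).1) = q.1 := by
  rw [F_back]; unfold F; simp

/-- inequality along an orbit of the map -/
theorem orbit_ineq {K K1 w : ℝ → ℝ} (hK : ∀ x, HasDerivAt K (K1 x) x) (hc : Cov K)
    (hw : ∀ x, 0 ≤ w x) (Φ : ℝ × ℝ → ℝ) (p : ℝ × ℝ) (M : ℕ) :
    ∑ n ∈ Finset.range (M + 1), Φ ((F K)^[n + 1] p) ^ 2 * gf K K1 w ((F K)^[n + 1] p) ≤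
      ∑ n ∈ Finset.range (M + 1), ef K w Φ ((F K)^[n] p) + b1 K w Φ p
        + b2 w Φ ((F K)^[M + 1] p) := by
  obtain ⟨x, y⟩ := p
  obtain ⟨τ, hl, hi, rfl⟩ := hc x y
  set p : ℝ × ℝ := (x, ph τ x) with hp
  have hit : ∀ n, (F K)^[n] p = (τ^[n] x, ph τ (τ^[n] x)) := hl.F_iter hi x
  set f : ℕ → ℝ := fun n => if n = 0 ∨ n = M + 2 then 0 else
    w (τ^[n] x) * Φ ((F K)^[n] p) with hf
  have hf0 : f 0 = 0 := by simp [hf]
  have hfN : f (M + 1 + 1) = 0 := by simp [hf]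
  have h1 := leaf_ineq hl hK hi x (M + 1) f hf0 hfN
  have h2 := ground_alg M (fun n => w (τ^[n] x)) (fun n => Φ ((F K)^[n] p))
    (fun n => cc (ph τ (τ^[n] x))) (fun n => K1 (τ^[n] x)) f
    (by
      intro n hn
      have : ¬ (n + 1 = 0 ∨ n + 1 = M + 2) := by omega
      simp only [hf, if_neg this]) hf0 hfN h1
  have hdl : ∀ n, τ^[n] x + dl (ph τ (τ^[n] x)) = τ^[n + 1] x := by
    intro n
    rw [hl.dl_ph, Function.iterate_succ_apply']; ring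
  have hL : ∀ n, gf K K1 w ((F K)^[n + 1] p) = w (τ^[n + 1] x) *
      (cc (ph τ (τ^[n + 1] x)) * (w (τ^[n + 2] x) - w (τ^[n + 1] x)) +
        cc (ph τ (τ^[n] x)) * (w (τ^[n] x) - w (τ^[n + 1] x)) +
        K1 (τ^[n + 1] x) * w (τ^[n + 1] x)) := by
    intro n
    have e1 : ((F K)^[n + 1] p).2 - K ((F K)^[n + 1] p).1 = ph τ (τ^[n] x) := by
      rw [Function.iterate_succ_apply', F_back, hit]
    have e2 : ((F K)^[n + 1] p).1 - dl (((F K)^[n + 1] p).2 - K ((F K)^[n + 1] p).1)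
        = τ^[n] x := by
      rw [Function.iterate_succ_apply', F_back', hit]
    unfold gf
    rw [e2, e1]
    rw [hit (n + 1)]
    simp only [hdl (n + 1)]
  have hE : ∀ n, ef K w Φ ((F K)^[n] p) = cc (ph τ (τ^[n] x)) *
      (w (τ^[n] x) * w (τ^[n + 1] x)) * (Φ ((F K)^[n + 1] p) - Φ ((F K)^[n] p)) ^ 2 := by
    intro n
    unfold ef
    rw [← Function.iterate_succ_apply' (F K) n p]
    have e3 : ((F K)^[n] p).1 + dl ((F K)^[n] p).2 = τ^[n + 1] x := by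
      rw [hit n]; exact hdl n
    rw [e3]
    have e4 : ((F K)^[n] p).1 = τ^[n] x := by rw [hit n]
    have e5 : ((F K)^[n] p).2 = ph τ (τ^[n] x) := by rw [hit n]
    rw [e4, e5]
  simp only [hL]
  refine h2.trans ?_
  have hE0 : 0 ≤ ef K w Φ ((F K)^[0] p) := by
    unfold ef
    have := hw ((F K)^[0] p).1
    have := hw (((F K)^[0] p).1 + dl ((F K)^[0] p).2)
    have := (cc_pos ((F K)^[0] p).2).le
    positivity
  have hsum : ∑ n ∈ Finset.range (M + 1), ef K w Φ ((F K)^[n] p) =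
      ∑ n ∈ Finset.range M, ef K w Φ ((F K)^[n + 1] p) + ef K w Φ ((F K)^[0] p) :=
    Finset.sum_range_succ' _ _
  rw [hsum]
  have hb1 : b1 K w Φ p = cc (ph τ (τ^[0] x)) * (w (τ^[0] x) * w (τ^[1] x)) *
      Φ ((F K)^[1] p) ^ 2 := by
    have := hdl 0
    simp only [Function.iterate_zero, id_eq] at this
    unfold b1
    simp only [hp, this]
    simp
  have hb2 : b2 w Φ ((F K)^[M + 1] p) = cc (ph τ (τ^[M + 1] x)) *
      (w (τ^[M + 1] x) * w (τ^[M + 2] x)) * Φ ((F K)^[M + 1] p) ^ 2 := by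
    unfold b2
    have e3 : ((F K)^[M + 1] p).1 + dl ((F K)^[M + 1] p).2 = τ^[M + 2] x := by
      rw [hit (M + 1)]; exact hdl (M + 1)
    rw [e3]
    have e4 : ((F K)^[M + 1] p).1 = τ^[M + 1] x := by rw [hit (M + 1)]
    have e5 : ((F K)^[M + 1] p).2 = ph τ (τ^[M + 1] x) := by rw [hit (M + 1)]
    rw [e4, e5]
  rw [hb1, hb2]
  simp only [hE] at hE0 ⊢
  linarith

end Pool.Agent.TH229.PB
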