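import Pool.Agent.TH229.PB.Defs

/-!
When `w = a + b cos + c sin`, every invariant leaf is a level curve of the linear integral.
-/

namespace Pool.Agent.TH229.PB

open Real Set Filter Topology

/-- first harmonic functions and their derivatives -/
noncomputable def W (a b c x : ℝ) : ℝ := a + b * Real.cos x + c * Real.sin x
noncomputable def W' (b c x : ℝ) : ℝ := -b * Real.sin x + c * Real.cos x

theorem W_hasDeriv (a b c x : ℝ) : HasDerivAt (W a b c) (W' b c x) x := by
  have := (((Real.hasDerivAt_cos x).const_mul b).const_add a).add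
    ((Real.hasDerivAt_sin x).const_mul c)
  refine this.congr_deriv ?_
  unfold W'; ring

theorem W'_hasDeriv (a b c x : ℝ) : HasDerivAt (W' b c) (a - W a b c x) x := by
  have := ((Real.hasDerivAt_sin x).const_mul (-b)).add ((Real.hasDerivAt_cos x).const_mul c)
  refine this.congr_deriv ?_
  unfold W; ring

theorem W_trig (a b c x t : ℝ) : (W a b c (x + 2 * t) - W a b c x) * Real.cos t =
    (W' b c (x + 2 * t) + W' b c x) * Real.sin t := by
  obtain ⟨m, rfl⟩ : ∃ m, x = m - t := ⟨x + t, by ring⟩
  have e : m - t + 2 * t = m + t := by ring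
  rw [e]
  unfold W W'
  rw [Real.sin_add, Real.cos_add, Real.sin_sub, Real.cos_sub]
  ring

theorem W_shift (a b c x d : ℝ) : W a b c (x + d) =
    a + (W a b c x - a) * Real.cos d + W' b c x * Real.sin d := by
  unfold W W'
  rw [Real.sin_add, Real.cos_add]
  ring

theorem sin_dl (y : ℝ) : Real.sin (dl y) = 2 * y / (1 + y ^ 2) := by
  have e : dl y = 2 * (dl y / 2) := by ring
  rw [e, Real.sin_two_mul, cos_half_dl]
  have h := sin_half_dl_sq y
  have h2 := sin_half_dl y
  have hp := one_add_sq_pos y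
  rw [h2]
  have hs : Real.sqrt (1 + y ^ 2) * Real.sqrt (1 + y ^ 2) = 1 + y ^ 2 := Real.mul_self_sqrt hp.le
  have hs0 : Real.sqrt (1 + y ^ 2) ≠ 0 := (Real.sqrt_pos.mpr hp).ne'
  have e2 : 2 * (1 / Real.sqrt (1 + y ^ 2)) * (y / Real.sqrt (1 + y ^ 2)) =
      2 * y / (Real.sqrt (1 + y ^ 2) * Real.sqrt (1 + y ^ 2)) := by field_simp
  rw [e2, hs]

theorem cos_dl (y : ℝ) : Real.cos (dl y) = 1 - 2 / (1 + y ^ 2) := by
  have e : dl y = 2 * (dl y / 2) := by ring
  rw [e, Real.cos_two_mul']
  have h := sin_half_dl_sq y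
  have h3 := Real.sin_sq_add_cos_sq (dl y / 2)
  have : Real.cos (dl y / 2) ^ 2 - Real.sin (dl y / 2) ^ 2 = 1 - 2 * Real.sin (dl y / 2) ^ 2 := by
    linarith
  rw [this, h]; ring

theorem dl_hasDeriv (y : ℝ) : HasDerivAt dl (-2 / (1 + y ^ 2)) y := by
  have := ((Real.hasDerivAt_arctan y).const_mul 2).const_sub π
  refine this.congr_deriv ?_
  ring

/-- the level curve as a circle map -/
noncomputable def TT (a b c k x : ℝ) : ℝ := x + dl ((k - W' b c x) / W a b c x)

section
variable {a b c : ℝ} (hpos : ∀ x, 0 < W a b c x)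
include hpos

theorem TT_hasDeriv (k x : ℝ) :
    HasDerivAt (TT a b c k) (W a b c (TT a b c k x) / W a b c x) x := by
  have hw := (hpos x).ne'
  have h1 := (((W'_hasDeriv a b c x).const_sub k).div (W_hasDeriv a b c x) hw)
  have h2 := (dl_hasDeriv ((k - W' b c x) / W a b c x)).comp x h1
  have h3 := (hasDerivAt_id x).add h2
  refine h3.congr_deriv ?_
  have e : TT a b c k x = x + dl ((k - W' b c x) / W a b c x) := rfl
  rw [e, W_shift, sin_dl, cos_dl]
  set y := (k - W' b c x) / W a b c x with hy
  have hk : k - W' b c x = y * W a b c x := by rw [hy]; field_simp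
  rw [hk]
  have hp := (one_add_sq_pos y).ne'
  field_simp
  ring

theorem W_cont : Continuous (W a b c) := by unfold W; fun_prop

/-- the uniformising parameter -/
noncomputable def XX (a b c x : ℝ) : ℝ := ∫ t in (0 : ℝ)..x, 1 / W a b c t

theorem XX_hasDeriv (x : ℝ) : HasDerivAt (XX a b c) (1 / W a b c x) x := by
  have hc : Continuous (fun t => 1 / W a b c t) :=
    continuous_const.div (W_cont hpos) (fun t => (hpos t).ne')
  exact (hc.integral_hasStrictDerivAt 0 x).hasDerivAt

theorem XX_strictMono : StrictMono (XX a b c) := by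
  refine strictMono_of_deriv_pos fun x => ?_
  rw [(XX_hasDeriv hpos x).deriv]
  exact one_div_pos.mpr (hpos x)

theorem XX_TT (k x : ℝ) : XX a b c (TT a b c k x) - XX a b c x =
    XX a b c (TT a b c k 0) - XX a b c 0 := by
  have hd : ∀ x, HasDerivAt (fun x => XX a b c (TT a b c k x) - XX a b c x) 0 x := by
    intro x
    have h1 := (XX_hasDeriv hpos (TT a b c k x)).comp x (TT_hasDeriv hpos k x)
    have h2 := h1.sub (XX_hasDeriv hpos x)
    refine h2.congr_deriv ?_
    have := (hpos (TT a b c k x)).ne'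
    have := (hpos x).ne'
    field_simp
    ring
  exact is_const_of_deriv_eq_zero (f := fun x => XX a b c (TT a b c k x) - XX a b c x)
    (fun x => (hd x).differentiableAt) (fun x => (hd x).deriv) x 0

theorem XX_per (x : ℝ) : XX a b c (x + 2 * π) = XX a b c x + XX a b c (2 * π) := by
  have hd : ∀ x, HasDerivAt (fun x => XX a b c (x + 2 * π) - XX a b c x) 0 x := by
    intro x
    have h0 : HasDerivAt (fun x : ℝ => x + 2 * π) 1 x := (hasDerivAt_id x).add_const _
    have h1 := (XX_hasDeriv hpos (x + 2 * π)).comp x h0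
    have h2 := h1.sub (XX_hasDeriv hpos x)
    refine h2.congr_deriv ?_
    have : W a b c (x + 2 * π) = W a b c x := by
      unfold W; rw [Real.cos_add_two_pi, Real.sin_add_two_pi]
    rw [this]; ring
  have h := is_const_of_deriv_eq_zero (f := fun x => XX a b c (x + 2 * π) - XX a b c x)
    (fun x => (hd x).differentiableAt) (fun x => (hd x).deriv) x 0
  have h0 : XX a b c 0 = 0 := by unfold XX; simp
  simp only [zero_add, h0, sub_zero] at h
  linarith

/-- displacement in the uniformising parameter as a function of the level -/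
noncomputable def rr (a b c k : ℝ) : ℝ := XX a b c (TT a b c k 0) - XX a b c 0

theorem rr_strictAnti : StrictAnti (rr a b c) := by
  intro k k' hk
  unfold rr
  have h1 : TT a b c k' 0 < TT a b c k 0 := by
    unfold TT
    have : (k - W' b c 0) / W a b c 0 < (k' - W' b c 0) / W a b c 0 :=
      div_lt_div_of_pos_right (by linarith) (hpos 0)
    have := dl_strictAnti this
    linarith
  have := XX_strictMono hpos h1
  linarith

/-- value of the linear integral on a leaf -/
noncomputable def lev (a b c : ℝ) (τ : ℝ → ℝ) (x : ℝ) : ℝ := W a b c x * ph τ x + W' b c x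

theorem lev_inv {τ K : ℝ → ℝ} (h : Leaf τ) (hi : Inv K τ)
    (hK : ∀ x, K x * W a b c x = -2 * W' b c x) (x : ℝ) :
    lev a b c τ (τ x) = lev a b c τ x := by
  unfold lev
  have h1 : ph τ (τ x) = ph τ x + K (τ x) := by linarith [hi x]
  rw [h1]
  have h2 := W_trig a b c x ((τ x - x) / 2)
  have e : x + 2 * ((τ x - x) / 2) = τ x := by ring
  rw [e] at h2
  have hs := (h.sin_pos x).ne'
  have h3 : (W a b c (τ x) - W a b c x) * ph τ x = W' b c (τ x) + W' b c x := by
    unfold ph
    rw [Real.cot_eq_cos_div_sin]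
    field_simp
    linarith
  have h4 := hK (τ x)
  linear_combination h3 + h4

theorem lev_TT {τ : ℝ → ℝ} (h : Leaf τ) (x : ℝ) : TT a b c (lev a b c τ x) x = τ x := by
  unfold TT lev
  have hw := (hpos x).ne'
  have : (W a b c x * ph τ x + W' b c x - W' b c x) / W a b c x = ph τ x := by field_simp; ring
  rw [this, h.dl_ph]; ring

theorem XX_iter {τ K : ℝ → ℝ} (h : Leaf τ) (hi : Inv K τ)
    (hK : ∀ x, K x * W a b c x = -2 * W' b c x) (x : ℝ) (n : ℕ) :
    lev a b c τ (τ^[n] x) = lev a b c τ x ∧
    XX a b c (τ^[n] x) = XX a b c x + n * rr a b c (lev a b c τ x) := by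
  induction n with
  | zero => simp
  | succ n ih =>
    obtain ⟨h1, h2⟩ := ih
    rw [Function.iterate_succ_apply']
    refine ⟨by rw [lev_inv hpos h hi hK, h1], ?_⟩
    have h3 := XX_TT hpos (lev a b c τ (τ^[n] x)) (τ^[n] x)
    rw [lev_TT hpos h] at h3
    have h4 : rr a b c (lev a b c τ x) =
      XX a b c (TT a b c (lev a b c τ (τ^[n] x)) 0) - XX a b c 0 := by rw [h1]; rfl
    push_cast
    rw [← h4] at h3
    linarith

theorem iter_per {τ : ℝ → ℝ} (h : Leaf τ) (x : ℝ) (n : ℕ) :
    τ^[n] (x + 2 * π) = τ^[n] x + 2 * π := by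
  induction n with
  | zero => rfl
  | succ n ih => rw [Function.iterate_succ_apply', ih, h.per, Function.iterate_succ_apply']

theorem lev_const {τ K : ℝ → ℝ} (h : Leaf τ) (hi : Inv K τ)
    (hK : ∀ x, K x * W a b c x = -2 * W' b c x) (x : ℝ) :
    lev a b c τ x = lev a b c τ 0 := by
  have hper : Function.Periodic (lev a b c τ) (2 * π) := by
    intro x
    unfold lev W W'
    rw [h.ph_per, Real.cos_add_two_pi, Real.sin_add_two_pi]
  obtain ⟨y, hy, hxy⟩ := hper.exists_mem_Ico₀ Real.two_pi_pos x
  rw [hxy]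
  rcases hy.1.eq_or_lt with h0 | h0
  · rw [← h0]
  -- compare the orbits of `0` and `y`
  have key : rr a b c (lev a b c τ y) = rr a b c (lev a b c τ 0) := by
    set r0 := rr a b c (lev a b c τ 0) with hr0
    set r1 := rr a b c (lev a b c τ y) with hr1
    have hb : ∀ n : ℕ, XX a b c 0 + n * r0 < XX a b c y + n * r1 ∧
        XX a b c y + n * r1 < XX a b c 0 + n * r0 + XX a b c (2 * π) := by
      intro n
      have e0 := (XX_iter hpos h hi hK 0 n).2
      have e1 := (XX_iter hpos h hi hK y n).2
      rw [← hr0] at e0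
      rw [← hr1] at e1
      rw [← e0, ← e1]
      constructor
      · exact XX_strictMono hpos (h.iter_mono n h0)
      · rw [← XX_per hpos]
        refine XX_strictMono hpos ?_
        rw [← iter_per hpos h]
        refine h.iter_mono n ?_
        linarith [hy.2]
    by_contra hne
    rcases lt_or_gt_of_ne hne with hlt | hlt
    · obtain ⟨n, hn⟩ := exists_nat_gt ((XX a b c y - XX a b c 0) / (r0 - r1))
      have hp : 0 < r0 - r1 := sub_pos.mpr hlt
      have := (div_lt_iff₀ hp).mp hn
      have := (hb n).1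
      linarith
    · obtain ⟨n, hn⟩ := exists_nat_gt ((XX a b c 0 + XX a b c (2 * π) - XX a b c y) / (r1 - r0))
      have hp : 0 < r1 - r0 := sub_pos.mpr hlt
      have := (div_lt_iff₀ hp).mp hn
      have := (hb n).2
      linarith
  exact (rr_strictAnti hpos).injective key

/-- equation of a leaf -/
theorem leaf_eq {τ K : ℝ → ℝ} (h : Leaf τ) (hi : Inv K τ)
    (hK : ∀ x, K x * W a b c x = -2 * W' b c x) (x : ℝ) :
    a * Real.cos ((τ x - x) / 2) + b * Real.cos ((x + τ x) / 2) + c * Real.sin ((x + τ x) / 2) =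
      lev a b c τ 0 * Real.sin ((τ x - x) / 2) := by
  have h1 := lev_const hpos h hi hK x
  have hs := (h.sin_pos x).ne'
  have h2 : W a b c x * Real.cos ((τ x - x) / 2) + W' b c x * Real.sin ((τ x - x) / 2) =
      lev a b c τ 0 * Real.sin ((τ x - x) / 2) := by
    rw [← h1]
    unfold lev ph
    rw [Real.cot_eq_cos_div_sin]
    field_simp
  rw [← h2]
  have e : (x + τ x) / 2 = x + (τ x - x) / 2 := by ring
  rw [e, Real.cos_add, Real.sin_add]
  unfold W W'
  ring

end

end Pool.Agent.TH229.PB
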