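import Pool.Agent.TH229.PB.Bounds

/-!
The cutoff argument: the density `gf` is integrable with nonpositive integral.
-/

namespace Pool.Agent.TH229.PB

open Real Set MeasureTheory Filter Topology

/-- all data: `w` is a positive periodic function with `K w = -2 w'` -/
structure Dat (K K1 w w1 w2 w3 w4 : ℝ → ℝ) : Prop where
  per : Per4 w w1 w2 w3 w4
  pos : ∀ x, 0 < w x
  hK : ∀ x, HasDerivAt K (K1 x) x
  K1c : Continuous K1
  Kp : ∀ x, K (x + 2 * π) = K x
  K1p : ∀ x, K1 (x + 2 * π) = K1 x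
  rel : ∀ x, K x * w x = -2 * w1 x
  rel1 : ∀ x, w1 x * K x + w x * K1 x = -2 * w2 x
  cov : Cov K

/-- remainder of the twist term -/
noncomputable def rho (w w1 w2 w3 : ℝ → ℝ) (x y : ℝ) : ℝ :=
  cc y * (w (x + dl y) - w x) - w1 x * y - w2 x - (2 / 3) * (w3 x + w1 x) * (y / (1 + y ^ 2))

theorem dl_neg (u : ℝ) : dl (-u) = 2 * π - dl u := by
  unfold dl; rw [Real.arctan_neg]; ring

theorem cc_neg (u : ℝ) : cc (-u) = cc u := by unfold cc; ring

section
variable {K K1 w w1 w2 w3 w4 : ℝ → ℝ} (D : Dat K K1 w w1 w2 w3 w4)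
include D

theorem gf_eq (x y : ℝ) : gf K K1 w (x, y) = w x * (rho w w1 w2 w3 x y +
    rho w w1 w2 w3 x (K x - y) +
    (2 / 3) * (w3 x + w1 x) * (y / (1 + y ^ 2) + (K x - y) / (1 + (K x - y) ^ 2))) := by
  have e1 : cc (y - K x) = cc (K x - y) := by rw [← cc_neg]; congr 1; ring
  have e2 : w (x - dl (y - K x)) = w (x + dl (K x - y)) := by
    rw [← D.per.p0]
    congr 1
    have : K x - y = -(y - K x) := by ring
    rw [this, dl_neg]; ring
  unfold gf rho
  simp only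
  rw [e1, e2]
  have h := D.rel1 x
  linear_combination w x * h

theorem Dat.Kc : Continuous K := continuous_iff_continuousAt.mpr fun x => (D.hK x).continuousAt

theorem inv_bound {B y k : ℝ} (hk : |k| ≤ B) :
    1 / (1 + (k - y) ^ 2) ≤ 2 * (1 + B ^ 2) / (1 + y ^ 2) := by
  have hk2 : k ^ 2 ≤ B ^ 2 := by
    rw [← sq_abs]; have := abs_nonneg k; gcongr
  rw [div_le_div_iff₀ (by positivity) (by positivity)]
  nlinarith [sq_nonneg (k - y), sq_nonneg (2 * k - y), sq_nonneg y, mul_nonneg (sq_nonneg B)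
    (sq_nonneg (k - y))]

theorem m_bound {B y k : ℝ} (hk : |k| ≤ B) :
    |y / (1 + y ^ 2) + (k - y) / (1 + (k - y) ^ 2)| ≤ B * (1 + B) / (1 + y ^ 2) := by
  have hB : 0 ≤ B := (abs_nonneg k).trans hk
  have e : y / (1 + y ^ 2) + (k - y) / (1 + (k - y) ^ 2) =
      k * (1 + k * (k - y) - (k - y) ^ 2) / ((1 + y ^ 2) * (1 + (k - y) ^ 2)) := by
    field_simp
    ring
  have h1 : |1 + k * (k - y) - (k - y) ^ 2| ≤ (1 + B) * (1 + (k - y) ^ 2) := by
    have hkk : |k * (k - y)| ≤ B * (1 + (k - y) ^ 2) := by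
      rw [abs_mul]
      have h2 : |k - y| ≤ 1 + (k - y) ^ 2 := by
        have := sq_nonneg (|k - y| - 1)
        have h3 := sq_abs (k - y)
        nlinarith [abs_nonneg (k - y)]
      exact mul_le_mul hk h2 (abs_nonneg _) hB
    rw [abs_le] at hkk ⊢
    constructor <;> nlinarith [sq_nonneg (k - y)]
  rw [e, abs_div, abs_mul, abs_of_pos (by positivity : 0 < (1 + y ^ 2) * (1 + (k - y) ^ 2)),
    div_le_div_iff₀ (by positivity) (by positivity)]
  calc |k| * |1 + k * (k - y) - (k - y) ^ 2| * (1 + y ^ 2)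
      ≤ B * ((1 + B) * (1 + (k - y) ^ 2)) * (1 + y ^ 2) := by gcongr
    _ = _ := by ring

theorem rho_bound : ∃ C, 0 ≤ C ∧ ∀ x y, |rho w w1 w2 w3 x y| ≤ C / (1 + y ^ 2) := by
  obtain ⟨C, hC, hb⟩ := D.per.bdd
  exact ⟨72 * C * (π / 2) ^ 4, by positivity, fun x y => B2_bound D.per hC hb x y⟩

theorem gf_bound : ∃ C, 0 ≤ C ∧ ∀ x y, |gf K K1 w (x, y)| ≤ C / (1 + y ^ 2) := by
  obtain ⟨C, hC, hb⟩ := D.per.bdd
  obtain ⟨C2, hC2, hr⟩ := rho_bound D
  obtain ⟨B, hB, hKb⟩ := bdd_of_per D.Kc D.Kp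
  refine ⟨C * (C2 + C2 * (2 * (1 + B ^ 2)) + (2 / 3) * (C + C) * (B * (1 + B))),
    by positivity, fun x y => ?_⟩
  rw [gf_eq D, abs_mul]
  have h1 := hr x y
  have h2 := hr x (K x - y)
  have h3 := inv_bound D (y := y) (hKb x)
  have h4 := m_bound D (y := y) (hKb x)
  have h5 : |rho w w1 w2 w3 x (K x - y)| ≤ C2 * (2 * (1 + B ^ 2) / (1 + y ^ 2)) := by
    calc _ ≤ C2 / (1 + (K x - y) ^ 2) := h2
      _ = C2 * (1 / (1 + (K x - y) ^ 2)) := by ring
      _ ≤ _ := by gcongr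
  have h6 : |(2 / 3) * (w3 x + w1 x) * (y / (1 + y ^ 2) + (K x - y) / (1 + (K x - y) ^ 2))| ≤
      (2 / 3) * (C + C) * (B * (1 + B) / (1 + y ^ 2)) := by
    rw [abs_mul, abs_mul, abs_of_pos (by norm_num : (0 : ℝ) < 2 / 3)]
    have : |w3 x + w1 x| ≤ C + C := (abs_add_le _ _).trans
      (add_le_add (hb x).2.2.2.1 (hb x).2.1)
    exact mul_le_mul (mul_le_mul_of_nonneg_left this (by norm_num)) h4
      (abs_nonneg _) (by positivity)
  have h7 : |rho w w1 w2 w3 x y + rho w w1 w2 w3 x (K x - y) +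
      (2 / 3) * (w3 x + w1 x) * (y / (1 + y ^ 2) + (K x - y) / (1 + (K x - y) ^ 2))| ≤
      C2 / (1 + y ^ 2) + C2 * (2 * (1 + B ^ 2) / (1 + y ^ 2)) +
      (2 / 3) * (C + C) * (B * (1 + B) / (1 + y ^ 2)) := by
    refine (abs_add_le _ _).trans (add_le_add ((abs_add_le _ _).trans (add_le_add h1 h5)) h6)
  calc |w x| * _ ≤ C * (C2 / (1 + y ^ 2) + C2 * (2 * (1 + B ^ 2) / (1 + y ^ 2)) +
      (2 / 3) * (C + C) * (B * (1 + B) / (1 + y ^ 2))) :=
        mul_le_mul (hb x).1 h7 (abs_nonneg _) hC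
    _ = _ := by ring

theorem integrable_inv (C : ℝ) : Integrable (fun p : ℝ × ℝ => C / (1 + p.2 ^ 2)) mu := by
  have h1 : Integrable (fun _ : ℝ => C) (volume.restrict (Ioc 0 (2 * π))) := integrable_const _
  have h2 := h1.mul_prod (integrable_inv_one_add_sq)
  refine h2.congr (Eventually.of_forall fun p => ?_)
  simp only [div_eq_mul_inv]

theorem gf_cont : Continuous (gf K K1 w) := by
  have := D.Kc
  have := D.K1c
  have := D.per.c0
  have := continuous_dl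
  have := continuous_cc
  unfold gf; fun_prop

theorem gf_integrable : Integrable (gf K K1 w) mu := by
  obtain ⟨C, hC, hb⟩ := gf_bound D
  refine (integrable_inv D C).mono' (gf_cont D).aestronglyMeasurable
    (Eventually.of_forall fun p => hb p.1 p.2)

/-- the linear integral -/
noncomputable def Yh (w w1 : ℝ → ℝ) (p : ℝ × ℝ) : ℝ := w p.1 * p.2 + w1 p.1

/-- cutoff function -/
noncomputable def cut (w w1 : ℝ → ℝ) (R : ℝ) (p : ℝ × ℝ) : ℝ :=
  max 0 (min 1 (2 - |Yh w w1 p| / R))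

theorem exists_min : ∃ m, 0 < m ∧ ∀ x, m ≤ w x := by
  obtain ⟨x0, hx0, hmin⟩ := isCompact_Icc.exists_isMinOn (nonempty_Icc.mpr Real.two_pi_pos.le)
    D.per.c0.continuousOn
  refine ⟨w x0, D.pos x0, fun x => ?_⟩
  have hp : Function.Periodic w (2 * π) := D.per.p0
  obtain ⟨y, hy, hxy⟩ := hp.exists_mem_Ico₀ Real.two_pi_pos x
  rw [hxy]
  exact hmin ⟨hy.1, hy.2.le⟩

theorem cut_adm {R : ℝ} (hR : 0 < R) : Adm (cut w w1 R) := by
  obtain ⟨C, hC, hb⟩ := D.per.bdd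
  obtain ⟨m, hm, hmw⟩ := exists_min D
  have hc := D.per.c0
  have hc1 := D.per.c1
  refine ⟨?_, fun x y => ?_, (2 * R + C) / m, fun x y hy => ?_⟩
  · unfold cut Yh; fun_prop
  · unfold cut Yh; simp only [D.per.p0, D.per.p1]
  · unfold cut Yh
    simp only
    have h1 : 2 * R + C < m * |y| := by
      have := (div_lt_iff₀ hm).mp hy
      linarith
    have h2 : m * |y| ≤ |w x * y| := by
      rw [abs_mul, abs_of_pos (D.pos x)]
      exact mul_le_mul_of_nonneg_right (hmw x) (abs_nonneg _)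
    have h3 : |w x * y| ≤ |w x * y + w1 x| + |w1 x| := by
      have := abs_sub (w x * y + w1 x) (w1 x)
      simpa using this
    have h4 := (hb x).2.1
    have h5 : 2 < |w x * y + w1 x| / R := by
      rw [lt_div_iff₀ hR]; linarith
    have h6 : min 1 (2 - |w x * y + w1 x| / R) ≤ 0 := (min_le_right _ _).trans (by linarith)
    exact max_eq_left h6

theorem cut_lip {R : ℝ} (hR : 0 < R) (p q : ℝ × ℝ) :
    |cut w w1 R p - cut w w1 R q| ≤ |Yh w w1 p - Yh w w1 q| / R := by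
  unfold cut
  calc |max 0 (min 1 (2 - |Yh w w1 p| / R)) - max 0 (min 1 (2 - |Yh w w1 q| / R))|
      ≤ |min 1 (2 - |Yh w w1 p| / R) - min 1 (2 - |Yh w w1 q| / R)| :=
        by
          have := abs_max_sub_max_le_abs (min 1 (2 - |Yh w w1 p| / R))
            (min 1 (2 - |Yh w w1 q| / R)) 0
          rwa [max_comm, max_comm _ (0 : ℝ)] at this
    _ ≤ |(2 - |Yh w w1 p| / R) - (2 - |Yh w w1 q| / R)| := by
        have := abs_min_sub_min_le_max 1 (2 - |Yh w w1 p| / R) 1 (2 - |Yh w w1 q| / R)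
        simpa using this
    _ = |(|Yh w w1 p| - |Yh w w1 q|)| / R := by
        have : (2 - |Yh w w1 p| / R) - (2 - |Yh w w1 q| / R) =
          -((|Yh w w1 p| - |Yh w w1 q|) / R) := by ring
        rw [this, abs_neg, abs_div, abs_of_pos hR]
    _ ≤ _ := by
        have := abs_abs_sub_abs_le (Yh w w1 p) (Yh w w1 q)
        gcongr

theorem Yh_F : ∃ C, 0 ≤ C ∧ ∀ p, |Yh w w1 (F K p) - Yh w w1 p| ≤ C / (1 + p.2 ^ 2) := by
  obtain ⟨C, hC, hb⟩ := D.per.bdd
  refine ⟨10 * C * (π / 2) ^ 3, by positivity, fun p => ?_⟩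
  have h := B1_bound D.per hC hb p.1 p.2
  have e : Yh w w1 (F K p) - Yh w w1 p =
      (w (p.1 + dl p.2) - w p.1) * p.2 - (w1 (p.1 + dl p.2) + w1 p.1) := by
    unfold Yh F
    simp only
    have := D.rel (p.1 + dl p.2)
    linear_combination this
  rw [e]; exact h

theorem ef_bound : ∃ C, 0 ≤ C ∧ ∀ R, 0 < R → ∀ p, ef K w (cut w w1 R) p ≤
    C / (1 + p.2 ^ 2) * (1 / R ^ 2) := by
  obtain ⟨C, hC, hb⟩ := D.per.bdd
  obtain ⟨C1, hC1, h1⟩ := Yh_F D
  refine ⟨C ^ 2 * C1 ^ 2 / 2, by positivity, fun R hR p => ?_⟩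
  have h2 := (cut_lip D hR (F K p) p).trans (div_le_div_of_nonneg_right (h1 p) hR.le)
  have h3 : (cut w w1 R (F K p) - cut w w1 R p) ^ 2 ≤ (C1 / (1 + p.2 ^ 2) / R) ^ 2 := by
    rw [← sq_abs]; gcongr
  have hw0 := (D.pos p.1).le
  have hw1 := (D.pos (p.1 + dl p.2)).le
  have hww : w p.1 * w (p.1 + dl p.2) ≤ C * C :=
    mul_le_mul ((le_abs_self _).trans (hb _).1) ((le_abs_self _).trans (hb _).1) hw1 hC
  have hcc := (cc_pos p.2).le
  unfold ef
  calc cc p.2 * (w p.1 * w (p.1 + dl p.2)) * (cut w w1 R (F K p) - cut w w1 R p) ^ 2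
      ≤ cc p.2 * (C * C) * (C1 / (1 + p.2 ^ 2) / R) ^ 2 := by gcongr
    _ = _ := by unfold cc; field_simp

theorem cut_tendsto (p : ℝ × ℝ) :
    Tendsto (fun n : ℕ => cut w w1 ((n : ℝ) + 1) p) atTop (𝓝 1) := by
  refine tendsto_const_nhds.congr' ?_
  filter_upwards [eventually_ge_atTop ⌈|Yh w w1 p|⌉₊] with n hn
  have h1 : |Yh w w1 p| ≤ (n : ℝ) + 1 := by
    have := Nat.le_of_ceil_le hn
    linarith
  have h2 : |Yh w w1 p| / ((n : ℝ) + 1) ≤ 1 := by
    rw [div_le_one (by positivity)]; exact h1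
  unfold cut
  rw [min_eq_left (by linarith), max_eq_right (by norm_num)]

theorem cut_le (R : ℝ) (p : ℝ × ℝ) : 0 ≤ cut w w1 R p ∧ cut w w1 R p ≤ 1 := by
  unfold cut
  exact ⟨le_max_left _ _, max_le (by norm_num) (min_le_left _ _)⟩

/-- the main consequence of the foliation -/
theorem integral_gf_nonpos : ∫ p, gf K K1 w p ∂mu ≤ 0 := by
  obtain ⟨C, hC, hg⟩ := gf_bound D
  obtain ⟨C3, hC3, he⟩ := ef_bound D
  have hR : ∀ n : ℕ, (0 : ℝ) < (n : ℝ) + 1 := fun n => by positivity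
  have hkey : ∀ n : ℕ, ∫ p, cut w w1 ((n : ℝ) + 1) p ^ 2 * gf K K1 w p ∂mu ≤
      (∫ p : ℝ × ℝ, C3 / (1 + p.2 ^ 2) ∂mu) * (1 / ((n : ℝ) + 1) ^ 2) := by
    intro n
    have hA := cut_adm D (hR n)
    have h1 := avg_ineq D.hK D.K1c D.Kp D.K1p D.cov (fun x => (D.pos x).le) D.per.c0 D.per.p0 hA
    refine h1.trans ?_
    rw [← integral_mul_const]
    refine integral_mono_of_nonneg (Eventually.of_forall fun p => ?_)
      ((integrable_inv D C3).mul_const _) (Eventually.of_forall fun p => he _ (hR n) p)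
    have hw0 := (D.pos p.1).le
    have hw1 := (D.pos (p.1 + dl p.2)).le
    have hcc := (cc_pos p.2).le
    simp only [Pi.zero_apply]
    unfold ef
    positivity
  have hlim : Tendsto (fun n : ℕ => ∫ p, cut w w1 ((n : ℝ) + 1) p ^ 2 * gf K K1 w p ∂mu) atTop
      (𝓝 (∫ p, gf K K1 w p ∂mu)) := by
    refine tendsto_integral_of_dominated_convergence (fun p => C / (1 + p.2 ^ 2)) ?_
      (integrable_inv D C) ?_ ?_
    · intro n
      exact (((cut_adm D (hR n)).cont.pow 2).mul (gf_cont D)).aestronglyMeasurable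
    · intro n
      refine Eventually.of_forall fun p => ?_
      have h1 := cut_le D ((n : ℝ) + 1) p
      have h2 : |cut w w1 ((n : ℝ) + 1) p ^ 2| ≤ 1 := by
        rw [abs_of_nonneg (by positivity)]
        exact pow_le_one₀ h1.1 h1.2
      rw [norm_mul, Real.norm_eq_abs, Real.norm_eq_abs]
      calc _ ≤ 1 * |gf K K1 w p| := by gcongr
        _ ≤ _ := by rw [one_mul]; exact hg p.1 p.2
    · refine Eventually.of_forall fun p => ?_
      have := ((cut_tendsto D p).pow 2).mul_const (gf K K1 w p)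
      simpa using this
  have hlim2 : Tendsto (fun n : ℕ => (∫ p : ℝ × ℝ, C3 / (1 + p.2 ^ 2) ∂mu) *
      (1 / ((n : ℝ) + 1) ^ 2)) atTop (𝓝 0) := by
    have h1 : Tendsto (fun n : ℕ => 1 / ((n : ℝ) + 1)) atTop (𝓝 0) :=
      tendsto_one_div_add_atTop_nhds_zero_nat
    have h2 := (h1.pow 2).const_mul (∫ p : ℝ × ℝ, C3 / (1 + p.2 ^ 2) ∂mu)
    simpa using h2
  exact le_of_tendsto_of_tendsto' hlim hlim2 hkey

end

end Pool.Agent.TH229.PB
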