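import Pool.Agent.TH229.PB.Eval
import Pool.Agent.TH229.PB.Leaves

/-!
From a smooth `K` with an invariant leaf through every point to the equation of the leaves.
-/

namespace Pool.Agent.TH229.PB

open Real Set MeasureTheory Filter Topology

theorem per_deriv {f f' : ℝ → ℝ} (hf : ∀ x, HasDerivAt f (f' x) x)
    (hp : ∀ x, f (x + 2 * π) = f x) (x : ℝ) : f' (x + 2 * π) = f' x := by
  have h0 : HasDerivAt (fun x : ℝ => x + 2 * π) 1 x := (hasDerivAt_id x).add_const _
  have h1 : HasDerivAt (fun x => f (x + 2 * π)) (f' (x + 2 * π) * 1) x :=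
    (hf (x + 2 * π)).comp x h0
  have h2 : (fun x => f (x + 2 * π)) = f := funext hp
  rw [h2, mul_one] at h1
  exact h1.unique (hf x)

/-- the ground state -/
noncomputable def ww (K : ℝ → ℝ) (x : ℝ) : ℝ := Real.exp (-(1 / 2) * ∫ t in (0 : ℝ)..x, K t)

theorem ww_hasDeriv {K : ℝ → ℝ} (hK : Continuous K) (x : ℝ) :
    HasDerivAt (ww K) (-(1 / 2) * (K x * ww K x)) x := by
  have h1 : HasDerivAt (fun x => ∫ t in (0 : ℝ)..x, K t) (K x) x :=
    (hK.integral_hasStrictDerivAt 0 x).hasDerivAt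
  have h2 := (h1.const_mul (-(1 / 2))).exp
  refine h2.congr_deriv ?_
  unfold ww; ring

theorem ww_per {K : ℝ → ℝ} (hK : Continuous K) (hKp : ∀ x, K (x + 2 * π) = K x)
    (h0 : ∫ x in (0 : ℝ)..(2 * π), K x = 0) (x : ℝ) : ww K (x + 2 * π) = ww K x := by
  unfold ww
  have hper : Function.Periodic K (2 * π) := hKp
  have h1 : ∫ t in (0 : ℝ)..(x + 2 * π), K t =
      (∫ t in (0 : ℝ)..x, K t) + ∫ t in x..(x + 2 * π), K t :=
    (intervalIntegral.integral_add_adjacent_intervals (hK.intervalIntegrable _ _)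
      (hK.intervalIntegrable _ _)).symm
  have h2 := hper.intervalIntegral_add_eq x 0
  rw [zero_add, h0] at h2
  rw [h1, h2, add_zero]

/-- construction of the data -/
theorem exists_dat {K K1 K2 K3 : ℝ → ℝ} (h1 : ∀ x, HasDerivAt K (K1 x) x)
    (h2 : ∀ x, HasDerivAt K1 (K2 x) x) (h3 : ∀ x, HasDerivAt K2 (K3 x) x)
    (hc : Continuous K3) (hKp : ∀ x, K (x + 2 * π) = K x) (hcov : Cov K) :
    ∃ w w1 w2 w3 w4 : ℝ → ℝ, Dat K K1 w w1 w2 w3 w4 := by
  have c0 : Continuous K := continuous_iff_continuousAt.mpr fun x => (h1 x).continuousAt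
  have c1 : Continuous K1 := continuous_iff_continuousAt.mpr fun x => (h2 x).continuousAt
  have c2 : Continuous K2 := continuous_iff_continuousAt.mpr fun x => (h3 x).continuousAt
  have hm := mean_zero c0 hKp hcov
  set w := ww K with hw
  set w1 : ℝ → ℝ := fun x => -(1 / 2) * (K x * w x) with hw1
  set w2 : ℝ → ℝ := fun x => -(1 / 2) * (K1 x * w x + K x * w1 x) with hw2
  set w3 : ℝ → ℝ := fun x => -(1 / 2) * (K2 x * w x + 2 * (K1 x * w1 x) + K x * w2 x) with hw3
  set w4 : ℝ → ℝ := fun x => -(1 / 2) * (K3 x * w x + 3 * (K2 x * w1 x) + 3 * (K1 x * w2 x) +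
    K x * w3 x) with hw4
  have d1 : ∀ x, HasDerivAt w (w1 x) x := ww_hasDeriv c0
  have d2 : ∀ x, HasDerivAt w1 (w2 x) x := fun x =>
    (((h1 x).mul (d1 x)).const_mul (-(1 / 2)))
  have d3 : ∀ x, HasDerivAt w2 (w3 x) x := fun x => by
    refine ((((h2 x).mul (d1 x)).add ((h1 x).mul (d2 x))).const_mul (-(1 / 2))).congr_deriv ?_
    simp only [hw3]; ring
  have d4 : ∀ x, HasDerivAt w3 (w4 x) x := fun x => by
    refine (((((h3 x).mul (d1 x)).add (((h2 x).mul (d2 x)).const_mul 2)).add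
      ((h1 x).mul (d3 x))).const_mul (-(1 / 2))).congr_deriv ?_
    simp only [hw4]; ring
  have cw : Continuous w := continuous_iff_continuousAt.mpr fun x => (d1 x).continuousAt
  have cw1 : Continuous w1 := continuous_iff_continuousAt.mpr fun x => (d2 x).continuousAt
  have cw2 : Continuous w2 := continuous_iff_continuousAt.mpr fun x => (d3 x).continuousAt
  have cw3 : Continuous w3 := continuous_iff_continuousAt.mpr fun x => (d4 x).continuousAt
  have cw4 : Continuous w4 := by simp only [hw4]; fun_prop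
  have p0 : ∀ x, w (x + 2 * π) = w x := ww_per c0 hKp hm
  have p1 := per_deriv d1 p0
  have p2 := per_deriv d2 p1
  have p3 := per_deriv d3 p2
  have p4 := per_deriv d4 p3
  refine ⟨w, w1, w2, w3, w4, ⟨⟨d1, d2, d3, d4, cw4, p0, p1, p2, p3, p4⟩,
    fun x => Real.exp_pos _, h1, c1, hKp, per_deriv h1 hKp, fun x => ?_, fun x => ?_, hcov⟩⟩
  · simp only [hw1]; ring
  · simp only [hw2]; ring

/-- the analytic core: form of the structure and equation of all leaves -/
theorem core {K K1 K2 K3 : ℝ → ℝ} (h1 : ∀ x, HasDerivAt K (K1 x) x)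
    (h2 : ∀ x, HasDerivAt K1 (K2 x) x) (h3 : ∀ x, HasDerivAt K2 (K3 x) x)
    (hc : Continuous K3) (hKp : ∀ x, K (x + 2 * π) = K x) (hcov : Cov K) :
    ∃ a b c : ℝ, (∀ x, 0 < W a b c x) ∧ ∀ τ, Leaf τ → Inv K τ → ∃ k : ℝ, ∀ x,
      a * Real.cos ((τ x - x) / 2) + b * Real.cos ((x + τ x) / 2) +
        c * Real.sin ((x + τ x) / 2) = k * Real.sin ((τ x - x) / 2) := by
  obtain ⟨w, w1, w2, w3, w4, D⟩ := exists_dat h1 h2 h3 hc hKp hcov
  obtain ⟨a, b, c, hw⟩ := w_form D
  have hwW : w = W a b c := funext fun x => hw x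
  have hw1 : ∀ x, w1 x = W' b c x := fun x => by
    have e1 := D.per.d1 x
    rw [hwW] at e1
    exact e1.unique (W_hasDeriv a b c x)
  have hpos : ∀ x, 0 < W a b c x := fun x => by rw [← hwW]; exact D.pos x
  have hK : ∀ x, K x * W a b c x = -2 * W' b c x := fun x => by
    rw [← hw1 x, ← hwW]; exact D.rel x
  exact ⟨a, b, c, hpos, fun τ hl hi => ⟨lev a b c τ 0, leaf_eq hpos hl hi hK⟩⟩

theorem pos_coeff {a b c : ℝ} (h : ∀ x, 0 < W a b c x) : 0 < a ∧ b ^ 2 + c ^ 2 < a ^ 2 := by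
  have ha : 0 < a := by
    have h1 := h 0
    have h2 := h π
    unfold W at h1 h2
    rw [Real.cos_zero, Real.sin_zero] at h1
    rw [Real.cos_pi, Real.sin_pi] at h2
    linarith
  refine ⟨ha, ?_⟩
  by_cases hz : (⟨-b, -c⟩ : ℂ) = 0
  · have hb : b = 0 := by have := congrArg Complex.re hz; simpa using this
    have hc : c = 0 := by have := congrArg Complex.im hz; simpa using this
    rw [hb, hc]; nlinarith
  · set z : ℂ := ⟨-b, -c⟩ with hzd
    have hn : 0 < ‖z‖ := norm_pos_iff.mpr hz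
    have h1 := h (Complex.arg z)
    unfold W at h1
    rw [Complex.cos_arg hz, Complex.sin_arg] at h1
    have hre : z.re = -b := rfl
    have him : z.im = -c := rfl
    rw [hre, him] at h1
    have hsq : ‖z‖ ^ 2 = b ^ 2 + c ^ 2 := by
      rw [← Complex.normSq_eq_norm_sq, Complex.normSq_apply, hre, him]; ring
    have h2 : a + b * (-b / ‖z‖) + c * (-c / ‖z‖) = a - ‖z‖ := by
      have : b * (-b / ‖z‖) + c * (-c / ‖z‖) = -(b ^ 2 + c ^ 2) / ‖z‖ := by ring
      have h3 : -(b ^ 2 + c ^ 2) / ‖z‖ = -‖z‖ := by rw [← hsq]; field_simp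
      linarith
    rw [h2] at h1
    rw [← hsq]
    nlinarith

end Pool.Agent.TH229.PB
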