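import Pool.Agent.TH229.PB.Meas

/-!
The function `K` has mean zero: comparison of the area between an invariant leaf and a
horizontal circle with the area of its image.
-/

namespace Pool.Agent.TH229.PB

open Real Filter Topology MeasureTheory Set
open scoped ENNReal

theorem Leaf.surj {τ : ℝ → ℝ} (h : Leaf τ) : Function.Surjective τ := by
  refine h.cont.surjective ?_ ?_
  · exact tendsto_atTop_mono (fun x => (h.above x).le) tendsto_id
  · refine tendsto_atBot_mono (fun x => (h.below x).le) ?_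
    exact tendsto_atBot_add_const_right _ _ tendsto_id

theorem bdd_of_per {f : ℝ → ℝ} (hf : Continuous f) (hp : ∀ x, f (x + 2 * π) = f x) :
    ∃ B, 0 ≤ B ∧ ∀ x, |f x| ≤ B := by
  have hc : IsCompact (f '' Icc 0 (2 * π)) := isCompact_Icc.image hf
  obtain ⟨B, hB⟩ := hc.isBounded.exists_norm_le
  have h2 : ∀ x, |f x| ≤ B := by
    intro x
    have hp : Function.Periodic f (2 * π) := hp
    obtain ⟨y, hy, hxy⟩ := hp.exists_mem_Ico₀ Real.two_pi_pos x
    rw [hxy]
    exact hB _ ⟨y, ⟨hy.1, hy.2.le⟩, rfl⟩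
  exact ⟨B, (abs_nonneg _).trans (h2 0), h2⟩

/-- a leaf separates the cylinder into two invariant parts -/
theorem Leaf.above_iff {τ K : ℝ → ℝ} (h : Leaf τ) (hi : Inv K τ) (x y : ℝ) :
    ph τ (x + dl y) < y + K (x + dl y) ↔ ph τ x < y := by
  obtain ⟨z, hz⟩ := h.surj (x + dl y)
  rw [← hz]
  have h1 : ph τ (τ z) = ph τ z + K (τ z) := by linarith [hi z]
  rw [h1]
  have h2 : dl (ph τ z) = τ z - z := h.dl_ph z
  have h3 : dl (ph τ x) = τ x - x := h.dl_ph x
  have e1 : ph τ z + K (τ z) < y + K (τ z) ↔ ph τ z < y := by constructor <;> intro h <;> linarith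
  rw [e1, ← dl_strictAnti.lt_iff_gt (a := y) (b := ph τ z),
    ← dl_strictAnti.lt_iff_gt (a := y) (b := ph τ x), h2, h3]
  constructor
  · intro hh
    have : z < x := by linarith
    have := h.mono this
    linarith
  · intro hh
    have : τ z < τ x := by linarith
    have := h.mono.lt_iff_lt.mp this
    linarith

theorem mean_zero {K : ℝ → ℝ} (hK : Continuous K) (hKp : ∀ x, K (x + 2 * π) = K x)
    (hc : Cov K) : ∫ x in (0 : ℝ)..(2 * π), K x = 0 := by
  obtain ⟨τ, hl, hi, -⟩ := hc 0 0
  obtain ⟨B1, hB1, hb1⟩ := bdd_of_per hl.continuous_ph hl.ph_per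
  obtain ⟨B2, hB2, hb2⟩ := bdd_of_per hK hKp
  set Y : ℝ := B1 + B2 + 1 with hY
  have hlc := hl.continuous_ph
  set S' : Set (ℝ × ℝ) := {p | ph τ p.1 < p.2 ∧ p.2 < Y + K p.1} with hS'
  have hS'm : MeasurableSet S' := by
    have h1 : IsOpen {p : ℝ × ℝ | ph τ p.1 < p.2} := isOpen_lt (by fun_prop) (by fun_prop)
    have h2 : IsOpen {p : ℝ × ℝ | p.2 < Y + K p.1} := isOpen_lt (by fun_prop) (by fun_prop)
    exact (h1.inter h2).measurableSet
  have h1 := lint_inv hK (S'.indicator (fun _ => (1 : ℝ≥0∞))) (measurable_const.indicator hS'm)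
    (by
      intro x y
      have e : ((x + 2 * π, y) ∈ S') ↔ ((x, y) ∈ S') := by
        simp only [hS', mem_ofPred_eq, hl.ph_per, hKp]
      by_cases h : (x, y) ∈ S'
      · rw [indicator_of_mem h, indicator_of_mem (e.mpr h)]
      · rw [indicator_of_notMem h, indicator_of_notMem (fun hh => h (e.mp hh))]) hKp
  set S : Set (ℝ × ℝ) := {p | ph τ p.1 < p.2 ∧ p.2 < Y} with hS
  have hSm : MeasurableSet S := by
    have h1 : IsOpen {p : ℝ × ℝ | ph τ p.1 < p.2} := isOpen_lt (by fun_prop) (by fun_prop)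
    have h2 : IsOpen {p : ℝ × ℝ | p.2 < Y} := isOpen_lt (by fun_prop) (by fun_prop)
    exact (h1.inter h2).measurableSet
  have h2 : ∀ p, S'.indicator (fun _ => (1 : ℝ≥0∞)) (F K p) =
      S.indicator (fun _ => (1 : ℝ≥0∞)) p := by
    intro p
    have e : F K p ∈ S' ↔ p ∈ S := by
      simp only [hS', hS, mem_ofPred_eq, F]
      rw [hl.above_iff hi p.1 p.2]
      constructor
      · rintro ⟨a, b⟩; exact ⟨a, by linarith⟩
      · rintro ⟨a, b⟩; exact ⟨a, by linarith⟩
    by_cases h : p ∈ S
    · rw [indicator_of_mem h, indicator_of_mem (e.mpr h)]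
    · rw [indicator_of_notMem h, indicator_of_notMem (fun hh => h (e.mp hh))]
  simp only [h2] at h1
  rw [lintegral_indicator_const hSm, lintegral_indicator_const hS'm, one_mul, one_mul] at h1
  have hphi : Integrable (ph τ) (volume.restrict (Ioc 0 (2 * π))) :=
    (hlc.continuousOn.integrableOn_compact isCompact_Icc).mono_set Ioc_subset_Icc_self
  have hKi : Integrable K (volume.restrict (Ioc 0 (2 * π))) :=
    (hK.continuousOn.integrableOn_compact isCompact_Icc).mono_set Ioc_subset_Icc_self
  have hci : Integrable (fun _ : ℝ => Y) (volume.restrict (Ioc 0 (2 * π))) :=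
    integrable_const _
  have r1 : S = regionBetween (ph τ) (fun _ => Y) univ := by
    ext p
    simp [hS, regionBetween]
  have r2 : S' = regionBetween (ph τ) (fun x => Y + K x) univ := by
    ext p
    simp [hS', regionBetween]
  have v1 := volume_regionBetween_eq_integral (μ := volume.restrict (Ioc 0 (2 * π)))
    (f := ph τ) (g := fun _ => Y) (s := univ) hphi.integrableOn hci.integrableOn
    MeasurableSet.univ (fun x _ => by
      have := abs_le.mp (hb1 x)
      linarith [this.2])
  have v2 := volume_regionBetween_eq_integral (μ := volume.restrict (Ioc 0 (2 * π)))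
    (f := ph τ) (g := fun x => Y + K x) (s := univ) hphi.integrableOn
    (hci.add hKi).integrableOn
    MeasurableSet.univ (fun x _ => by
      have := abs_le.mp (hb1 x)
      have h3 := abs_le.mp (hb2 x)
      linarith [this.2, h3.1])
  rw [← r1] at v1
  rw [← r2] at v2
  have h3 : mu S = mu S' := h1
  unfold mu at h3
  rw [v1, v2] at h3
  rw [Measure.restrict_univ] at h3
  have n1 : 0 ≤ ∫ y in Ioc 0 (2 * π), ((fun _ : ℝ => Y) - ph τ) y := by
    refine integral_nonneg fun x => ?_
    have := abs_le.mp (hb1 x)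
    simp only [Pi.zero_apply, Pi.sub_apply]; linarith [this.2]
  have n2 : 0 ≤ ∫ y in Ioc 0 (2 * π), ((fun x => Y + K x) - ph τ) y := by
    refine integral_nonneg fun x => ?_
    have := abs_le.mp (hb1 x)
    have h3 := abs_le.mp (hb2 x)
    simp only [Pi.zero_apply, Pi.sub_apply]; linarith [this.2, h3.1]
  rw [ENNReal.ofReal_eq_ofReal_iff n1 n2] at h3
  have e2 : ∫ y in Ioc 0 (2 * π), ((fun x => Y + K x) - ph τ) y =
      (∫ y in Ioc 0 (2 * π), ((fun _ : ℝ => Y) - ph τ) y) + ∫ y in Ioc 0 (2 * π), K y := by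
    rw [← integral_add (hci.sub hphi) hKi]
    refine integral_congr_ae (Filter.Eventually.of_forall fun x => ?_)
    simp only [Pi.sub_apply]; ring
  rw [e2] at h3
  rw [intervalIntegral.integral_of_le Real.two_pi_pos.le]
  linarith

end Pool.Agent.TH229.PB
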