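import Pool.Agent.TH229.PB.Ground

/-!
Invariance of the area of the phase cylinder and integration of the orbit inequality.
-/

namespace Pool.Agent.TH229.PB

open Real Filter Topology MeasureTheory Set
open scoped ENNReal

/-- area on the phase cylinder (fundamental strip) -/
noncomputable def mu : Measure (ℝ × ℝ) := (volume.restrict (Ioc 0 (2 * π))).prod volume

theorem lint_shift (f : ℝ → ℝ≥0∞) (hf : Function.Periodic f (2 * π)) (a : ℝ) :
    ∫⁻ x in Ioc 0 (2 * π), f (x + a) = ∫⁻ x in Ioc 0 (2 * π), f x := by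
  have h1 : ∫⁻ x in Ioc 0 (2 * π), f (x + a) = ∫⁻ x in Ioc a (a + 2 * π), f x := by
    have h := (measurePreserving_add_right volume a).setLIntegral_comp_preimage_emb
      (measurableEmbedding_addRight a) f (Ioc a (a + 2 * π))
    rw [← h]
    congr 2
    ext x
    simp only [mem_preimage, mem_Ioc]
    constructor
    · rintro ⟨h1, h2⟩; constructor <;> linarith
    · rintro ⟨h1, h2⟩; constructor <;> linarith
  rw [h1]
  have : VAddInvariantMeasure (AddSubgroup.zmultiples (2 * π)) ℝ volume :=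
    ⟨fun c s _ => measure_preimage_add _ _ _⟩
  have h2 := (isAddFundamentalDomain_Ioc Real.two_pi_pos a (μ := volume)).setLIntegral_eq
    (isAddFundamentalDomain_Ioc Real.two_pi_pos 0 (μ := volume)) f hf.map_vadd_zmultiples
  rw [h2]
  simp

theorem lint_inv {K : ℝ → ℝ} (hK : Continuous K) (f : ℝ × ℝ → ℝ≥0∞) (hf : Measurable f)
    (hper : ∀ x y, f (x + 2 * π, y) = f (x, y)) (hKp : ∀ x, K (x + 2 * π) = K x) :
    ∫⁻ p, f (F K p) ∂mu = ∫⁻ p, f p ∂mu := by
  have hmF : Measurable (F K) := (continuous_F hK).measurable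
  unfold mu
  have h0 := lintegral_prod_symm (μ := volume.restrict (Ioc 0 (2 * π))) (ν := volume)
    (fun p : ℝ × ℝ => f (F K p)) (hf.comp hmF).aemeasurable
  rw [h0]
  have h1 : ∀ y : ℝ, ∫⁻ x in Ioc 0 (2 * π), f (F K (x, y)) =
      ∫⁻ x in Ioc 0 (2 * π), f (x, y + K x) := by
    intro y
    exact lint_shift (fun x => f (x, y + K x)) (fun x => by
      simp only [hKp]; exact hper x _) (dl y)
  simp only [h1]
  have hm2 : Measurable (fun p : ℝ × ℝ => f (p.1, p.2 + K p.1)) :=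
    hf.comp (by
      have : Continuous (fun p : ℝ × ℝ => (p.1, p.2 + K p.1)) := by fun_prop
      exact this.measurable)
  have h2 := lintegral_prod_symm (μ := volume.restrict (Ioc 0 (2 * π))) (ν := volume)
    (fun p : ℝ × ℝ => f (p.1, p.2 + K p.1)) hm2.aemeasurable
  simp only at h2
  rw [← h2, lintegral_prod _ hm2.aemeasurable, lintegral_prod _ hf.aemeasurable]
  refine lintegral_congr fun x => ?_
  exact lintegral_add_right_eq_self (fun y => f (x, y)) (K x)

/-- test functions on the cylinder -/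
structure Adm (h : ℝ × ℝ → ℝ) : Prop where
  cont : Continuous h
  per : ∀ x y, h (x + 2 * π, y) = h (x, y)
  supp : ∃ R, ∀ x y, R < |y| → h (x, y) = 0

theorem Adm.integrable {h : ℝ × ℝ → ℝ} (H : Adm h) : Integrable h mu := by
  obtain ⟨R, hR⟩ := H.supp
  have h1 : IntegrableOn h (Icc 0 (2 * π) ×ˢ Icc (-R) R) (volume.prod volume) :=
    H.cont.continuousOn.integrableOn_compact (isCompact_Icc.prod isCompact_Icc)
  have h2 : mu = (volume.prod volume).restrict (Ioc 0 (2 * π) ×ˢ (univ : Set ℝ)) := by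
    unfold mu
    rw [← Measure.prod_restrict, Measure.restrict_univ]
  rw [h2]
  have h3 : IntegrableOn h (Ioc 0 (2 * π) ×ˢ Icc (-R) R) (volume.prod volume) :=
    h1.mono_set (prod_mono Ioc_subset_Icc_self subset_rfl)
  refine h3.of_forall_sdiff_eq_zero (measurableSet_Ioc.prod MeasurableSet.univ) ?_
  rintro ⟨x, y⟩ ⟨⟨hx, _⟩, hn⟩
  refine hR x y ?_
  by_contra hy
  rw [not_lt, abs_le] at hy
  exact hn ⟨hx, hy⟩

theorem Adm.comp_F {h : ℝ × ℝ → ℝ} (H : Adm h) {K : ℝ → ℝ} (hK : Continuous K)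
    (hKp : ∀ x, K (x + 2 * π) = K x) : Adm (fun p => h (F K p)) := by
  obtain ⟨R, hR⟩ := H.supp
  have hb : ∃ B, ∀ x, |K x| ≤ B := by
    have hc : IsCompact (K '' Icc 0 (2 * π)) := isCompact_Icc.image hK
    obtain ⟨B, hB⟩ := hc.isBounded.exists_norm_le
    refine ⟨B, fun x => ?_⟩
    have hp : Function.Periodic K (2 * π) := hKp
    obtain ⟨y, hy, hxy⟩ := hp.exists_mem_Ico₀ Real.two_pi_pos x
    rw [hxy]
    exact hB _ ⟨y, ⟨hy.1, hy.2.le⟩, rfl⟩
  obtain ⟨B, hB⟩ := hb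
  refine ⟨H.cont.comp (continuous_F hK), fun x y => ?_, R + B, fun x y hy => ?_⟩
  · unfold F
    simp only
    have e : x + 2 * π + dl y = x + dl y + 2 * π := by ring
    rw [e, hKp, H.per]
  · unfold F
    refine hR _ _ ?_
    simp only
    have h1 := hB (x + dl y)
    have h2 : |y| ≤ |y + K (x + dl y)| + |K (x + dl y)| := by
      have := abs_sub (y + K (x + dl y)) (K (x + dl y))
      simpa using this
    linarith

theorem integral_inv {K : ℝ → ℝ} (hK : Continuous K) (hKp : ∀ x, K (x + 2 * π) = K x)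
    {h : ℝ × ℝ → ℝ} (hc : Continuous h) (hper : ∀ x y, h (x + 2 * π, y) = h (x, y))
    (hi : Integrable h mu) (hi' : Integrable (fun p => h (F K p)) mu) :
    ∫ p, h (F K p) ∂mu = ∫ p, h p ∂mu := by
  rw [integral_eq_lintegral_pos_part_sub_lintegral_neg_part hi,
    integral_eq_lintegral_pos_part_sub_lintegral_neg_part hi']
  have e1 := lint_inv hK (fun p => ENNReal.ofReal (h p)) (hc.measurable.ennreal_ofReal)
    (fun x y => by simp only [hper]) hKp
  have e2 := lint_inv hK (fun p => ENNReal.ofReal (- h p)) (hc.neg.measurable.ennreal_ofReal)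
    (fun x y => by simp only [hper]) hKp
  rw [e1, e2]

theorem Adm.iter {h : ℝ × ℝ → ℝ} (H : Adm h) {K : ℝ → ℝ} (hK : Continuous K)
    (hKp : ∀ x, K (x + 2 * π) = K x) (n : ℕ) :
    Adm (fun p => h ((F K)^[n] p)) ∧ ∫ p, h ((F K)^[n] p) ∂mu = ∫ p, h p ∂mu := by
  induction n with
  | zero => exact ⟨H, rfl⟩
  | succ n ih =>
    obtain ⟨h1, h2⟩ := ih
    have h3 := h1.comp_F hK hKp
    refine ⟨?_, ?_⟩
    · simpa only [← Function.iterate_succ_apply] using h3
    · have h4 := integral_inv hK hKp h1.cont h1.per h1.integrable h3.integrable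
      simp only [← Function.iterate_succ_apply] at h4
      rw [h4, h2]

theorem Adm.mul {u v : ℝ × ℝ → ℝ} (hu : Continuous u)
    (hup : ∀ x y, u (x + 2 * π, y) = u (x, y)) (hv : Adm v) : Adm (fun p => u p * v p) := by
  obtain ⟨R, hR⟩ := hv.supp
  exact ⟨hu.mul hv.cont, fun x y => by rw [hup, hv.per], R, fun x y h => by
    rw [hR x y h, mul_zero]⟩

theorem Adm.sub {u v : ℝ × ℝ → ℝ} (hu : Adm u) (hv : Adm v) : Adm (fun p => u p - v p) := by
  obtain ⟨R, hR⟩ := hv.supp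
  obtain ⟨R', hR'⟩ := hu.supp
  refine ⟨hu.cont.sub hv.cont, fun x y => by rw [hu.per, hv.per], max R R', fun x y h => ?_⟩
  rw [hR x y ((le_max_left _ _).trans_lt h), hR' x y ((le_max_right _ _).trans_lt h), sub_zero]

theorem Adm.sq {u : ℝ × ℝ → ℝ} (hu : Adm u) : Adm (fun p => u p ^ 2) := by
  have := Adm.mul hu.cont hu.per hu
  simpa only [← pow_two] using this

/-- the averaged inequality -/
theorem avg_ineq {K K1 w : ℝ → ℝ} (hK : ∀ x, HasDerivAt K (K1 x) x) (hK1 : Continuous K1)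
    (hKp : ∀ x, K (x + 2 * π) = K x) (hK1p : ∀ x, K1 (x + 2 * π) = K1 x)
    (hc : Cov K) (hw : ∀ x, 0 ≤ w x) (hwc : Continuous w) (hwp : ∀ x, w (x + 2 * π) = w x)
    {Φ : ℝ × ℝ → ℝ} (hΦ : Adm Φ) :
    ∫ p, Φ p ^ 2 * gf K K1 w p ∂mu ≤ ∫ p, ef K w Φ p ∂mu := by
  have hKc : Continuous K := by
    rw [continuous_iff_continuousAt]; exact fun x => (hK x).continuousAt
  have hdl := continuous_dl
  have hcc := continuous_cc
  have hgc : Continuous (gf K K1 w) := by unfold gf; fun_prop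
  have hgp : ∀ x y, gf K K1 w (x + 2 * π, y) = gf K K1 w (x, y) := by
    intro x y
    unfold gf
    simp only [hKp, hK1p, hwp]
    have e1 : x + 2 * π + dl y = x + dl y + 2 * π := by ring
    have e2 : x + 2 * π - dl (y - K x) = x - dl (y - K x) + 2 * π := by ring
    rw [e1, e2, hwp, hwp]
  have hA : Adm (fun p => Φ p ^ 2 * gf K K1 w p) := by
    have := Adm.mul hgc hgp hΦ.sq
    simpa only [mul_comm] using this
  have hkc : Continuous (fun p : ℝ × ℝ => cc p.2 * (w p.1 * w (p.1 + dl p.2))) := by fun_prop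
  have hkp : ∀ x y, (fun p : ℝ × ℝ => cc p.2 * (w p.1 * w (p.1 + dl p.2))) (x + 2 * π, y) =
      (fun p : ℝ × ℝ => cc p.2 * (w p.1 * w (p.1 + dl p.2))) (x, y) := by
    intro x y
    simp only
    have e1 : x + 2 * π + dl y = x + dl y + 2 * π := by ring
    rw [e1, hwp, hwp]
  have hΦF := hΦ.comp_F hKc hKp
  have hE : Adm (ef K w Φ) := Adm.mul hkc hkp (hΦF.sub hΦ).sq
  have hB1 : Adm (b1 K w Φ) := Adm.mul hkc hkp hΦF.sq
  have hB2 : Adm (b2 w Φ) := Adm.mul hkc hkp hΦ.sq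
  have key : ∀ M : ℕ, ((M : ℝ) + 1) * ∫ p, Φ p ^ 2 * gf K K1 w p ∂mu ≤
      ((M : ℝ) + 1) * ∫ p, ef K w Φ p ∂mu + (∫ p, b1 K w Φ p ∂mu + ∫ p, b2 w Φ p ∂mu) := by
    intro M
    have h1 : ∫ p, ∑ n ∈ Finset.range (M + 1),
        Φ ((F K)^[n + 1] p) ^ 2 * gf K K1 w ((F K)^[n + 1] p) ∂mu =
        ((M : ℝ) + 1) * ∫ p, Φ p ^ 2 * gf K K1 w p ∂mu := by
      rw [integral_finsetSum _ fun n _ => ((hA.iter hKc hKp (n + 1)).1).integrable]
      have : ∀ n : ℕ, ∫ p, Φ ((F K)^[n + 1] p) ^ 2 * gf K K1 w ((F K)^[n + 1] p) ∂mu =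
          ∫ p, Φ p ^ 2 * gf K K1 w p ∂mu := fun n => (hA.iter hKc hKp (n + 1)).2
      simp only [this, Finset.sum_const, Finset.card_range, nsmul_eq_mul]
      push_cast; ring
    have h2 : ∫ p, ∑ n ∈ Finset.range (M + 1), ef K w Φ ((F K)^[n] p) ∂mu =
        ((M : ℝ) + 1) * ∫ p, ef K w Φ p ∂mu := by
      rw [integral_finsetSum _ fun n _ => ((hE.iter hKc hKp n).1).integrable]
      have : ∀ n : ℕ, ∫ p, ef K w Φ ((F K)^[n] p) ∂mu =
          ∫ p, ef K w Φ p ∂mu := fun n => (hE.iter hKc hKp n).2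
      simp only [this, Finset.sum_const, Finset.card_range, nsmul_eq_mul]
      push_cast; ring
    have h3 : ∫ p, b2 w Φ ((F K)^[M + 1] p) ∂mu = ∫ p, b2 w Φ p ∂mu :=
      (hB2.iter hKc hKp (M + 1)).2
    rw [← h1, ← h2, ← h3]
    have i1 : Integrable (fun p => ∑ n ∈ Finset.range (M + 1),
        Φ ((F K)^[n + 1] p) ^ 2 * gf K K1 w ((F K)^[n + 1] p)) mu :=
      integrable_finsetSum _ fun n _ => ((hA.iter hKc hKp (n + 1)).1).integrable
    have i2 : Integrable (fun p => ∑ n ∈ Finset.range (M + 1), ef K w Φ ((F K)^[n] p)) mu :=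
      integrable_finsetSum _ fun n _ => ((hE.iter hKc hKp n).1).integrable
    have i3 : Integrable (fun p => b2 w Φ ((F K)^[M + 1] p)) mu :=
      ((hB2.iter hKc hKp (M + 1)).1).integrable
    have i4 : Integrable (b1 K w Φ) mu := hB1.integrable
    have e : ∫ p, (∑ n ∈ Finset.range (M + 1), ef K w Φ ((F K)^[n] p) + b1 K w Φ p
        + b2 w Φ ((F K)^[M + 1] p)) ∂mu = ∫ p, ∑ n ∈ Finset.range (M + 1),
          ef K w Φ ((F K)^[n] p) ∂mu + (∫ p, b1 K w Φ p ∂mu +
          ∫ p, b2 w Φ ((F K)^[M + 1] p) ∂mu) := by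
      have a1 := integral_add (i2.add i4) i3
      have a2 := integral_add i2 i4
      simp only [Pi.add_apply] at a1
      rw [a1, a2]
      ring
    rw [← e]
    exact integral_mono i1 ((i2.add i4).add i3) fun p => orbit_ineq hK hc hw Φ p M
  by_contra hlt
  rw [not_le] at hlt
  set a := ∫ p, Φ p ^ 2 * gf K K1 w p ∂mu
  set b := ∫ p, ef K w Φ p ∂mu
  set B := ∫ p, b1 K w Φ p ∂mu + ∫ p, b2 w Φ p ∂mu
  have hpos : 0 < a - b := sub_pos.mpr hlt
  obtain ⟨M, hM⟩ := exists_nat_gt (B / (a - b))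
  have h1 := key M
  have h2 : B < M * (a - b) := (div_lt_iff₀ hpos).mp hM
  nlinarith

end Pool.Agent.TH229.PB
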