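import Pool.Agent.TH229.PB.Defs

/-!
The inequality along one orbit of a leaf (discrete Jacobi field comparison by two orbits
of the same leaf).
-/

namespace Pool.Agent.TH229.PB

open Real Filter Topology

/-- difference of cotangents -/
theorem cot_sub_cot {a b : ℝ} (ha : Real.sin a ≠ 0) (hb : Real.sin b ≠ 0) :
    Real.cot a - Real.cot b = - (Real.sin (a - b) / (Real.sin a * Real.sin b)) := by
  rw [Real.cot_eq_cos_div_sin, Real.cot_eq_cos_div_sin, Real.sin_sub]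
  field_simp
  ring

theorem term_ineq {η ξ ξ' C f f' : ℝ} (hξ : 0 < ξ) (hξ' : 0 < ξ')
    (hC : ∃ c, 0 ≤ c ∧ c ≤ C ∧ η = - c * (ξ' - ξ)) :
    η * (f ^ 2 / ξ - f' ^ 2 / ξ') ≤ C * (f' - f) ^ 2 := by
  obtain ⟨c, hc0, hcC, rfl⟩ := hC
  have key : - (ξ' - ξ) * (f ^ 2 / ξ - f' ^ 2 / ξ') ≤ (f' - f) ^ 2 := by
    have h : (f' - f) ^ 2 - (- (ξ' - ξ) * (f ^ 2 / ξ - f' ^ 2 / ξ'))
        = (f * ξ' - f' * ξ) ^ 2 / (ξ * ξ') := by
      field_simp
      ring
    have h2 : 0 ≤ (f * ξ' - f' * ξ) ^ 2 / (ξ * ξ') := by positivity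
    linarith
  calc (- c * (ξ' - ξ)) * (f ^ 2 / ξ - f' ^ 2 / ξ')
      = c * (- (ξ' - ξ) * (f ^ 2 / ξ - f' ^ 2 / ξ')) := by ring
    _ ≤ c * (f' - f) ^ 2 := mul_le_mul_of_nonneg_left key hc0
    _ ≤ C * (f' - f) ^ 2 := mul_le_mul_of_nonneg_right hcC (sq_nonneg _)

/-- cotangent difference as a nonpositive multiple of the difference of gaps -/
theorem cot_diff_form {d e : ℝ} (hd : 0 < d) (hd' : d < 2 * π) (he : 0 < e) (he' : e < 2 * π) :
    ∃ c, 0 ≤ c ∧ c ≤ 1 / (2 * (Real.sin (d / 2) * Real.sin (e / 2))) ∧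
      Real.cot (e / 2) - Real.cot (d / 2) = - c * (e - d) := by
  have hsd : 0 < Real.sin (d / 2) := Real.sin_pos_of_pos_of_lt_pi (by linarith) (by linarith)
  have hse : 0 < Real.sin (e / 2) := Real.sin_pos_of_pos_of_lt_pi (by linarith) (by linarith)
  rw [cot_sub_cot hse.ne' hsd.ne']
  have hu : e / 2 - d / 2 = (e - d) / 2 := by ring
  rw [hu]
  rcases eq_or_ne e d with h | h
  · subst h
    exact ⟨0, le_refl _, by positivity, by simp⟩
  · have hne : e - d ≠ 0 := sub_ne_zero.mpr h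
    refine ⟨(Real.sin ((e - d) / 2) / (e - d)) / (Real.sin (d / 2) * Real.sin (e / 2)), ?_, ?_, ?_⟩
    · refine div_nonneg ?_ (by positivity)
      rcases lt_or_gt_of_ne hne with h1 | h1
      · refine div_nonneg_of_nonpos ?_ h1.le
        exact Real.sin_nonpos_of_nonpos_of_neg_pi_le (by linarith) (by linarith)
      · refine div_nonneg ?_ h1.le
        exact Real.sin_nonneg_of_nonneg_of_le_pi (by linarith) (by linarith)
    · have h3 : Real.sin ((e - d) / 2) / (e - d) ≤ 1 / 2 := by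
        rcases lt_or_gt_of_ne hne with h1 | h1
        · rw [div_le_iff_of_neg h1]
          have := Real.sin_lt (x := -((e - d) / 2)) (by linarith)
          rw [Real.sin_neg] at this
          linarith
        · rw [div_le_iff₀ h1]
          have := Real.sin_lt (x := ((e - d) / 2)) (by linarith)
          linarith
      calc (Real.sin ((e - d) / 2) / (e - d)) / (Real.sin (d / 2) * Real.sin (e / 2))
          ≤ (1 / 2) / (Real.sin (d / 2) * Real.sin (e / 2)) :=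
            div_le_div_of_nonneg_right h3 (by positivity)
        _ = 1 / (2 * (Real.sin (d / 2) * Real.sin (e / 2))) := by rw [div_div]
    · field_simp

/-- finite inequality for two orbits of one leaf -/
theorem two_orbit {τ K : ℝ → ℝ} (h : Leaf τ) (hi : Inv K τ) {x z : ℝ} (hxz : x < z)
    (N : ℕ) (f : ℕ → ℝ) (h0 : f 0 = 0) (hN : f (N + 1) = 0) :
    ∑ n ∈ Finset.range N, f (n + 1) ^ 2 *
        ((K (τ^[n + 1] z) - K (τ^[n + 1] x)) / (τ^[n + 1] z - τ^[n + 1] x)) ≤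
      ∑ n ∈ Finset.range (N + 1),
        1 / (2 * (Real.sin ((τ^[n + 1] x - τ^[n] x) / 2) * Real.sin ((τ^[n + 1] z - τ^[n] z) / 2)))
          * (f (n + 1) - f n) ^ 2 := by
  set ξ : ℕ → ℝ := fun n => τ^[n] z - τ^[n] x with hξd
  set η : ℕ → ℝ := fun n => ph τ (τ^[n] z) - ph τ (τ^[n] x) with hηd
  have hξ : ∀ n, 0 < ξ n := fun n => sub_pos.mpr (h.iter_mono n hxz)
  have hKη : ∀ n, K (τ^[n + 1] z) - K (τ^[n + 1] x) = η (n + 1) - η n := by
    intro n
    simp only [hηd, Function.iterate_succ_apply']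
    rw [← hi (τ^[n] z), ← hi (τ^[n] x)]
    ring
  have hform : ∀ n, ∃ c, 0 ≤ c ∧
      c ≤ 1 / (2 * (Real.sin ((τ^[n + 1] x - τ^[n] x) / 2) *
        Real.sin ((τ^[n + 1] z - τ^[n] z) / 2))) ∧ η n = - c * (ξ (n + 1) - ξ n) := by
    intro n
    simp only [hηd, hξd, Function.iterate_succ_apply', ph]
    have := cot_diff_form (d := τ (τ^[n] x) - τ^[n] x) (e := τ (τ^[n] z) - τ^[n] z)
      (by linarith [h.above (τ^[n] x)]) (by linarith [h.below (τ^[n] x)])
      (by linarith [h.above (τ^[n] z)]) (by linarith [h.below (τ^[n] z)])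
    obtain ⟨c, hc0, hc1, hc2⟩ := this
    exact ⟨c, hc0, hc1, by rw [hc2]; ring⟩
  have hsum : ∑ n ∈ Finset.range N, f (n + 1) ^ 2 *
        ((K (τ^[n + 1] z) - K (τ^[n + 1] x)) / (τ^[n + 1] z - τ^[n + 1] x)) =
      ∑ n ∈ Finset.range (N + 1), η n * (f n ^ 2 / ξ n - f (n + 1) ^ 2 / ξ (n + 1)) := by
    have e1 : ∀ n, f (n + 1) ^ 2 *
        ((K (τ^[n + 1] z) - K (τ^[n + 1] x)) / (τ^[n + 1] z - τ^[n + 1] x)) =
        η (n + 1) * (f (n + 1) ^ 2 / ξ (n + 1)) - η n * (f (n + 1) ^ 2 / ξ (n + 1)) := by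
      intro n
      rw [hKη n]
      simp only [hξd]
      ring
    simp only [e1, Finset.sum_sub_distrib, mul_sub]
    congr 1
    · rw [Finset.sum_range_succ' (fun n => η n * (f n ^ 2 / ξ n)) N]
      simp [h0]
    · rw [Finset.sum_range_succ (fun n => η n * (f (n + 1) ^ 2 / ξ (n + 1))) N]
      simp [hN]
  rw [hsum]
  refine Finset.sum_le_sum fun n _ => ?_
  exact term_ineq (hξ n) (hξ (n + 1)) (hform n)

/-- inequality along one orbit -/
theorem leaf_ineq {τ K K1 : ℝ → ℝ} (h : Leaf τ) (hK : ∀ x, HasDerivAt K (K1 x) x)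
    (hi : Inv K τ) (x : ℝ) (N : ℕ) (f : ℕ → ℝ) (h0 : f 0 = 0) (hN : f (N + 1) = 0) :
    ∑ n ∈ Finset.range N, f (n + 1) ^ 2 * K1 (τ^[n + 1] x) ≤
      ∑ n ∈ Finset.range (N + 1), cc (ph τ (τ^[n] x)) * (f (n + 1) - f n) ^ 2 := by
  have hT : ∀ n, Tendsto (fun z => τ^[n] z) (𝓝[>] x) (𝓝 (τ^[n] x)) := fun n =>
    ((h.iter_cont n).tendsto x).mono_left nhdsWithin_le_nhds
  have hT' : ∀ n, Tendsto (fun z => τ^[n] z) (𝓝[>] x) (𝓝[≠] (τ^[n] x)) := by
    intro n
    refine tendsto_nhdsWithin_iff.mpr ⟨hT n, ?_⟩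
    filter_upwards [self_mem_nhdsWithin] with z hz
    exact (h.iter_mono n hz).ne'
  refine le_of_tendsto_of_tendsto (b := 𝓝[>] x)
    (f := fun z => ∑ n ∈ Finset.range N, f (n + 1) ^ 2 *
        ((K (τ^[n + 1] z) - K (τ^[n + 1] x)) / (τ^[n + 1] z - τ^[n + 1] x)))
    (g := fun z => ∑ n ∈ Finset.range (N + 1),
        1 / (2 * (Real.sin ((τ^[n + 1] x - τ^[n] x) / 2) * Real.sin ((τ^[n + 1] z - τ^[n] z) / 2)))
          * (f (n + 1) - f n) ^ 2) ?_ ?_ ?_
  · refine tendsto_finsetSum _ fun n _ => Tendsto.const_mul _ ?_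
    have h1 := (hasDerivAt_iff_tendsto_slope.mp (hK (τ^[n + 1] x))).comp (hT' (n + 1))
    refine h1.congr fun z => ?_
    simp only [Function.comp, slope_def_field]
  · refine tendsto_finsetSum _ fun n _ => Tendsto.mul_const _ ?_
    rw [h.cc_ph]
    have hs : 0 < Real.sin ((τ^[n + 1] x - τ^[n] x) / 2) := by
      rw [Function.iterate_succ_apply']; exact h.sin_pos _
    have h2 : Tendsto (fun z => Real.sin ((τ^[n + 1] z - τ^[n] z) / 2)) (𝓝[>] x)
        (𝓝 (Real.sin ((τ^[n + 1] x - τ^[n] x) / 2))) :=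
      (Real.continuous_sin.tendsto _).comp (((hT (n + 1)).sub (hT n)).div_const 2)
    have h3 : Tendsto (fun z => 1 / (2 * (Real.sin ((τ^[n + 1] x - τ^[n] x) / 2) *
        Real.sin ((τ^[n + 1] z - τ^[n] z) / 2)))) (𝓝[>] x)
        (𝓝 (1 / (2 * (Real.sin ((τ^[n + 1] x - τ^[n] x) / 2) *
        Real.sin ((τ^[n + 1] x - τ^[n] x) / 2))))) := by
      refine Tendsto.div tendsto_const_nhds ((h2.const_mul _).const_mul 2) ?_
      positivity
    have h4 : 1 / (2 * (Real.sin ((τ^[n + 1] x - τ^[n] x) / 2) *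
        Real.sin ((τ^[n + 1] x - τ^[n] x) / 2))) =
        1 / (2 * Real.sin ((τ (τ^[n] x) - τ^[n] x) / 2) ^ 2) := by
      rw [Function.iterate_succ_apply']; ring
    rw [h4] at h3
    exact h3
  · filter_upwards [self_mem_nhdsWithin] with z hz
    exact two_orbit h hi hz N f h0 hN

end Pool.Agent.TH229.PB
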